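import Pool.Agent.H755Z.Tree.Forest

/-! Branching process bound for the number of forests avoiding prescribed local shapes. -/

set_option autoImplicit false
set_option linter.unusedSectionVars false

namespace Pool.Agent.H755Z.Tree

open Finset Classical

variable {V : Type} [Fintype V] [DecidableEq V]

inductive Sp
  | emp : Sp
  | one : Sp → Sp → Sp

def Mt (p : PF V) : Sp → V × Bool → Prop
  | .emp, σ => ∀ v, p v ≠ some σ
  | .one a b, σ => ∃ c, p c = some σ ∧ (∀ v, p v = some σ → v = c) ∧ Mt p a (c, false) ∧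
      Mt p b (c, true)

noncomputable def pw (i : ℕ) : ℝ := Real.exp (-1 / 2) * ((1 / 2) ^ i / i.factorial)

noncomputable def wt : Sp → ℝ
  | .emp => pw 0
  | .one a b => pw 1 * (wt a * wt b)

def Sp.size : Sp → ℕ
  | .emp => 1
  | .one a b => a.size + b.size + 1

lemma pw_pos (i : ℕ) : 0 < pw i := by unfold pw; positivity

lemma sum_pw (n : ℕ) : ∑ i ∈ range n, pw i ≤ 1 := by
  unfold pw
  rw [← mul_sum]
  have h := Real.sum_le_exp_of_nonneg (x := 1 / 2) (by norm_num) n
  have h2 : Real.exp (-1 / 2) * Real.exp (1 / 2) = 1 := by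
    rw [← Real.exp_add]; norm_num
  calc _ ≤ Real.exp (-1 / 2) * Real.exp (1 / 2) := by gcongr
    _ = 1 := h2

lemma pw_le_one (i : ℕ) : pw i ≤ 1 := by
  have := sum_pw (i + 1)
  rw [sum_range_succ] at this
  have h := sum_nonneg (s := range i) (fun j _ => (pw_pos j).le)
  linarith

lemma wt_pos : ∀ a : Sp, 0 < wt a
  | .emp => pw_pos 0
  | .one a b => mul_pos (pw_pos 1) (mul_pos (wt_pos a) (wt_pos b))

lemma wt_le_one : ∀ a : Sp, wt a ≤ 1
  | .emp => pw_le_one 0
  | .one a b => mul_le_one₀ (pw_le_one 1) (mul_pos (wt_pos a) (wt_pos b)).le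
      (mul_le_one₀ (wt_le_one a) (wt_pos b).le (wt_le_one b))

abbrev Blk (V : Type) := List ((V × Bool) × Sp)

def MB (p : PF V) (B : Blk V) : Prop := ∀ x ∈ B, Mt p x.2 x.1

noncomputable def wL (l : List Sp) : ℝ := (l.map wt).prod

lemma wL_pos (l : List Sp) : 0 < wL l := by
  induction l with
  | nil => simp [wL]
  | cons a l ih => simpa [wL] using mul_pos (wt_pos a) ih

lemma wL_le_one (l : List Sp) : wL l ≤ 1 := by
  induction l with
  | nil => simp [wL]
  | cons a l ih => simpa [wL] using mul_le_one₀ (wt_le_one a) (wL_pos l).le ih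

noncomputable def Phi (s k : ℕ) : ℝ := s.factorial * 2 ^ s * Real.exp (s + k / 2)

lemma Phi_pos (s k : ℕ) : 0 < Phi s k := by unfold Phi; positivity

lemma Phi_step {s k i k' : ℕ} (hi : i ≤ s) (hk : k' + 1 = k + 2 * i) :
    (s.choose i : ℝ) * Phi (s - i) k' = Phi s k * pw i := by
  unfold Phi pw
  obtain ⟨t, rfl⟩ := Nat.exists_eq_add_of_le hi
  rw [Nat.add_sub_cancel_left]
  have h1 : ((i + t).choose i : ℝ) * i.factorial * t.factorial = (i + t).factorial := by
    have := Nat.add_choose_mul_factorial_mul_factorial i t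
    rw [Nat.choose_symm_add.symm] at this
    exact_mod_cast this
  have h2 : (k' : ℝ) = k + 2 * i - 1 := by
    have : (k' : ℝ) + 1 = k + 2 * i := by exact_mod_cast hk
    linarith
  have h3 : Real.exp (t + k' / 2) = Real.exp (((i + t : ℕ) : ℝ) + k / 2) * Real.exp (-1 / 2) := by
    rw [← Real.exp_add, h2]; push_cast; ring_nf
  rw [h3, ← h1, pow_add]
  have : (i.factorial : ℝ) ≠ 0 := by positivity
  have h4 : (2 : ℝ) ^ i * (1 / 2) ^ i = 1 := by rw [← mul_pow]; norm_num
  field_simp
  rw [one_div, inv_pow]
  field_simp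

/-- summation over the children of one slot -/
lemma sum_step {S : Finset V} {A : Finset (V × Bool)} (hv : Valid S A) {σ : V × Bool}
    (hσ : σ ∈ A) (j : ℕ) (q r : ℝ) (hq : 0 ≤ q) (hr0 : 0 ≤ r) (hr1 : r ≤ 1) (c : Finset V → ℝ)
    (hc : ∀ C ⊆ S, c C ≤ q * (if C.card = j then 1 - r else 1) *
      Phi (S \ C).card (newA A σ C).card) :
    ∑ C ∈ S.powerset, c C ≤ q * (1 - pw j * r) * Phi S.card A.card := by
  have h1 : ∑ C ∈ S.powerset, c C ≤ ∑ C ∈ S.powerset,
      q * (if C.card = j then 1 - r else 1) * Phi (S.card - C.card) (A.card + 2 * C.card - 1) := by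
    refine sum_le_sum fun C hC => ?_
    have hC' := mem_powerset.1 hC
    have h2 := card_newA hv hσ hC'
    have h3 : (S \ C).card = S.card - C.card := card_sdiff_of_subset hC'
    have h4 : (newA A σ C).card = A.card + 2 * C.card - 1 := by omega
    have := hc C hC'
    rwa [h3, h4] at this
  rw [sum_powerset_apply_card
    (fun i => q * (if i = j then 1 - r else 1) * Phi (S.card - i) (A.card + 2 * i - 1))] at h1
  have hA := card_pos.2 ⟨σ, hσ⟩
  have h2 : ∑ i ∈ range (S.card + 1), S.card.choose i •
      (q * (if i = j then 1 - r else 1) * Phi (S.card - i) (A.card + 2 * i - 1)) =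
      q * (∑ i ∈ range (S.card + 1), (if i = j then 1 - r else 1) * pw i) * Phi S.card A.card := by
    rw [mul_sum, sum_mul]
    refine sum_congr rfl fun i hi => ?_
    have h3 := Phi_step (s := S.card) (k := A.card) (i := i) (k' := A.card + 2 * i - 1)
      (by have := mem_range.1 hi; omega) (by omega)
    rw [nsmul_eq_mul]
    linear_combination (q * (if i = j then 1 - r else 1)) * h3
  rw [h2] at h1
  refine h1.trans ?_
  have h3 : ∑ i ∈ range (S.card + 1), (if i = j then 1 - r else 1) * pw i ≤ 1 - pw j * r := by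
    calc ∑ i ∈ range (S.card + 1), (if i = j then 1 - r else 1) * pw i
        ≤ ∑ i ∈ range (S.card + 1 + j), (if i = j then 1 - r else 1) * pw i := by
          apply sum_le_sum_of_subset_of_nonneg (range_subset_range.2 (by omega))
          intro i _ _
          apply mul_nonneg _ (pw_pos i).le
          split_ifs <;> linarith
      _ = ∑ i ∈ range (S.card + 1 + j), (pw i - if i = j then pw j * r else 0) := by
          refine sum_congr rfl fun i _ => ?_
          split_ifs with h
          · rw [h]; ring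
          · ring
      _ = ∑ i ∈ range (S.card + 1 + j), pw i - pw j * r := by
          rw [sum_sub_distrib, sum_ite_eq', if_pos (mem_range.2 (by omega))]
      _ ≤ 1 - pw j * r := by have := sum_pw (S.card + 1 + j); linarith
  have := Phi_pos S.card A.card
  gcongr

theorem card_le_Phi (N : ℕ) : ∀ (S : Finset V) (A : Finset (V × Bool)),
    2 * S.card + A.card = N → Valid S A → ((FF S A).card : ℝ) ≤ Phi S.card A.card := by
  induction N with
  | zero =>
    intro S A h _
    have h1 : S = ∅ := card_eq_zero.1 (by omega)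
    have h2 : A.card = 0 := by omega
    subst h1
    rw [FF_empty_left, h2]; simp [Phi]
  | succ N ih =>
    intro S A h hv
    rcases A.eq_empty_or_nonempty with rfl | ⟨σ, hσ⟩
    · have : S.Nonempty := by
        rw [← card_pos]; simp at h; omega
      rw [FF_empty_right this]; simpa using (Phi_pos _ _).le
    rw [card_eq_sum hv hσ]
    push_cast
    have := sum_step hv hσ 0 1 0 zero_le_one le_rfl zero_le_one
      (fun C => ((FF (S \ C) (newA A σ C)).card : ℝ)) (fun C hC => by
        have h1 := card_newA hv hσ hC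
        have h2 : (S \ C).card = S.card - C.card := card_sdiff_of_subset hC
        have h3 := card_le_card hC
        simpa using ih (S \ C) (newA A σ C) (by omega) (valid_new hv σ C))
    simpa using this

lemma Mt_cut {p : PF V} {σ : V × Bool} (h : p σ.1 = none) :
    ∀ (a : Sp) (τ : V × Bool), τ ≠ σ → (Mt (cut p σ) a τ ↔ Mt p a τ) := by
  have key : ∀ τ, τ ≠ σ → ∀ v, cut p σ v = some τ ↔ p v = some τ := by
    intro τ hτ v
    unfold cut
    split_ifs with hc
    · rw [hc]; simp [hτ.symm]
    · rfl
  intro a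
  induction a with
  | emp => intro τ hτ; simp only [Mt, ne_eq, key τ hτ]
  | one a b iha ihb =>
    intro τ hτ
    simp only [Mt, key τ hτ]
    refine exists_congr fun c => and_congr_right fun hc => and_congr_right fun _ => ?_
    have : ∀ b, (c, b) ≠ σ := by
      rintro b rfl
      simp only at h
      rw [h] at hc; cases hc
    rw [iha _ (this _), ihb _ (this _)]

def LocQ (Q : PF V → Prop) (U : Set (V × Bool)) : Prop :=
  ∀ p σ, p σ.1 = none → σ ∉ U → Q p → Q (cut p σ)

def Bd (Q : PF V → Prop) (U : Set (V × Bool)) (q : ℝ) : Prop :=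
  ∀ S A, Valid S A → U ⊆ (A : Set (V × Bool)) →
    (((FF S A).filter Q).card : ℝ) ≤ q * Phi S.card A.card

lemma bd_step {Q : PF V → Prop} {U : Set (V × Bool)} {q : ℝ} (hL : LocQ Q U) (hB : Bd Q U q)
    (hq : 0 ≤ q) (N : ℕ) : ∀ (B : Blk V), (B.map (fun x => x.2.size)).sum = N →
      (B.map Prod.fst).Nodup → (∀ x ∈ B, x.1 ∉ U) →
      ∀ S A, Valid S A → U ⊆ (A : Set (V × Bool)) → (∀ x ∈ B, x.1 ∈ A) →
      (((FF S A).filter (fun p => Q p ∧ ¬ MB p B)).card : ℝ) ≤
        q * (1 - wL (B.map Prod.snd)) * Phi S.card A.card := by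
  induction N using Nat.strong_induction_on with
  | _ N ih =>
  intro B hN hnd hU S A hv hUA hBA
  rcases B with _ | ⟨⟨σ, a⟩, B⟩
  · simp [MB, wL]
  have hσ : σ ∈ A := hBA (σ, a) (by simp)
  have hσU : σ ∉ U := hU (σ, a) (by simp)
  simp only [List.map_cons, List.nodup_cons, List.sum_cons] at hnd hN
  have hne : ∀ x ∈ B, x.1 ≠ σ := by
    intro x hx e
    exact hnd.1 (e ▸ List.mem_map_of_mem hx)
  have hUn : ∀ C, U ⊆ (newA A σ C : Set (V × Bool)) := by
    intro C τ hτ
    exact mem_newA.2 (Or.inl ⟨fun e => hσU (e ▸ hτ), hUA hτ⟩)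
  have hBn : ∀ C, ∀ x ∈ B, x.1 ∈ newA A σ C := fun C x hx =>
    mem_newA.2 (Or.inl ⟨hne x hx, hBA x (by simp [hx])⟩)
  have hMB : ∀ p, IsF S A p → MB (cut p σ) B → MB p B := fun p hp h x hx =>
    (Mt_cut (hp.1 _ (hv σ hσ)) x.2 x.1 (hne x hx)).1 (h x hx)
  cases a with
  | emp =>
    have h1 := card_le_sum (S := S) (A := A) σ (fun p => Q p ∧ ¬ MB p ((σ, Sp.emp) :: B))
      (fun C p => Q p ∧ (C.card = 0 → ¬ MB p B)) (by
        intro p hp h
        refine ⟨hL p σ (hp.1 _ (hv σ hσ)) hσU h.1, fun hC hM => h.2 ?_⟩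
        intro x hx
        rcases List.mem_cons.1 hx with rfl | hx
        · intro v e
          have : v ∈ ch p σ := mem_ch.2 e
          rw [card_eq_zero.1 hC] at this
          simp at this
        · exact hMB p hp hM x hx)
    have h2 := sum_step hv hσ 0 q (wL (B.map Prod.snd)) hq (wL_pos _).le (wL_le_one _)
      (fun C => (((FF (S \ C) (newA A σ C)).filter
        (fun p => Q p ∧ (C.card = 0 → ¬ MB p B))).card : ℝ)) (by
        intro C hC
        split_ifs with h0
        · simp only [h0, true_imp_iff]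
          exact ih _ (by simp only [Sp.size] at hN; omega) B rfl hnd.2
            (fun x hx => hU x (by simp [hx])) _ _ (valid_new hv σ C) (hUn C) (hBn C)
        · simp only [h0, false_imp_iff, and_true, mul_one]
          exact hB _ _ (valid_new hv σ C) (hUn C))
    have h3 : wL (List.map Prod.snd ((σ, Sp.emp) :: B)) = pw 0 * wL (B.map Prod.snd) := by
      simp [wL, wt]
    rw [h3]
    refine le_trans ?_ h2
    rw [← Nat.cast_sum, Nat.cast_le]
    convert h1
  | one a b =>
    have h1 := card_le_sum (S := S) (A := A) σ (fun p => Q p ∧ ¬ MB p ((σ, Sp.one a b) :: B))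
      (fun C p => Q p ∧ (∀ c, C = {c} → ¬ MB p (((c, false), a) :: ((c, true), b) :: B))) (by
        intro p hp h
        refine ⟨hL p σ (hp.1 _ (hv σ hσ)) hσU h.1, fun c hC hM => h.2 ?_⟩
        have hc : p c = some σ := mem_ch.1 (by rw [hC]; simp)
        have hcσ : ∀ b, (c, b) ≠ σ := by
          rintro b rfl
          exact hv _ hσ (hp.mem_of_some hc)
        intro x hx
        rcases List.mem_cons.1 hx with rfl | hx
        · refine ⟨c, hc, fun v e => ?_, ?_, ?_⟩
          · have : v ∈ ch p σ := mem_ch.2 e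
            rw [hC] at this
            simpa using this
          · exact (Mt_cut (hp.1 _ (hv σ hσ)) _ _ (hcσ _)).1 (hM ((c, false), a) (by simp))
          · exact (Mt_cut (hp.1 _ (hv σ hσ)) _ _ (hcσ _)).1 (hM ((c, true), b) (by simp))
        · exact hMB p hp (fun y hy => hM y (by simp [hy])) x hx)
    have h2 := sum_step hv hσ 1 q (wt a * wt b * wL (B.map Prod.snd)) hq
      (mul_pos (mul_pos (wt_pos a) (wt_pos b)) (wL_pos _)).le
      (mul_le_one₀ (mul_le_one₀ (wt_le_one a) (wt_pos b).le (wt_le_one b)) (wL_pos _).le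
        (wL_le_one _))
      (fun C => (((FF (S \ C) (newA A σ C)).filter
        (fun p => Q p ∧ (∀ c, C = {c} →
          ¬ MB p (((c, false), a) :: ((c, true), b) :: B)))).card : ℝ)) (by
        intro C hC
        split_ifs with h0
        · obtain ⟨c, rfl⟩ := card_eq_one.1 h0
          have hcS : c ∈ S := hC (by simp)
          have hcA : ∀ b, (c, b) ∉ A := fun b h => hv _ h hcS
          have := ih _ (by simp only [Sp.size] at hN; simp; omega)
            (((c, false), a) :: ((c, true), b) :: B) rfl (by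
              simp only [List.map_cons, List.nodup_cons, List.mem_cons, not_or]
              refine ⟨⟨by simp, ?_⟩, ?_, hnd.2⟩
              · intro h
                obtain ⟨x, hx, e⟩ := List.mem_map.1 h
                exact hcA false (e ▸ hBA x (by simp [hx]))
              · intro h
                obtain ⟨x, hx, e⟩ := List.mem_map.1 h
                exact hcA true (e ▸ hBA x (by simp [hx])))
            (by
              intro x hx
              simp only [List.mem_cons] at hx
              rcases hx with rfl | rfl | hx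
              · exact fun h => hcA _ (hUA h)
              · exact fun h => hcA _ (hUA h)
              · exact hU x (by simp [hx]))
            _ _ (valid_new hv σ {c}) (hUn {c}) (by
              intro x hx
              simp only [List.mem_cons] at hx
              rcases hx with rfl | rfl | hx
              · exact mem_newA.2 (Or.inr (by simp))
              · exact mem_newA.2 (Or.inr (by simp))
              · exact hBn _ x hx)
          have e : wL (List.map Prod.snd (((c, false), a) :: ((c, true), b) :: B)) =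
              wt a * wt b * wL (B.map Prod.snd) := by simp [wL, mul_assoc]
          rw [e] at this
          simpa using this
        · have : ∀ c, C ≠ {c} := by rintro c rfl; simp at h0
          simp only [this, false_imp_iff, implies_true, and_true, mul_one]
          exact hB _ _ (valid_new hv σ C) (hUn C))
    have h3 : wL (List.map Prod.snd ((σ, Sp.one a b) :: B)) =
        pw 1 * (wt a * wt b * wL (B.map Prod.snd)) := by
      simp [wL, wt, mul_assoc]
    rw [h3]
    refine le_trans ?_ h2
    rw [← Nat.cast_sum, Nat.cast_le]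
    convert h1

/-- several blocks on pairwise different slots -/
theorem bd_multi {ι : Type} (B : ι → Blk V) (r : ℝ) (hr : ∀ j, wL ((B j).map Prod.snd) = r)
    (hnd : ∀ j, ((B j).map Prod.fst).Nodup)
    (hdj : ∀ i j, i ≠ j → ∀ x ∈ B i, ∀ y ∈ B j, x.1 ≠ y.1) (J : Finset ι) :
    LocQ (fun p => ∀ j ∈ J, ¬ MB p (B j)) {τ | ∃ j ∈ J, ∃ x ∈ B j, x.1 = τ} ∧
    Bd (fun p => ∀ j ∈ J, ¬ MB p (B j)) {τ | ∃ j ∈ J, ∃ x ∈ B j, x.1 = τ} ((1 - r) ^ J.card) := by
  constructor
  · intro p σ hp hσ h j hj hM
    refine h j hj fun x hx => (Mt_cut hp x.2 x.1 ?_).1 (hM x hx)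
    intro e
    exact hσ ⟨j, hj, x, hx, e⟩
  induction J using Finset.induction_on with
  | empty =>
    intro S A hv _
    simpa using card_le_Phi _ S A rfl hv
  | insert i J hi ih =>
    intro S A hv hU
    have hL : LocQ (fun p => ∀ j ∈ J, ¬ MB p (B j)) {τ | ∃ j ∈ J, ∃ x ∈ B j, x.1 = τ} := by
      intro p σ hp hσ h j hj hM
      refine h j hj fun x hx => (Mt_cut hp x.2 x.1 ?_).1 (hM x hx)
      intro e
      exact hσ ⟨j, hj, x, hx, e⟩
    have h0 : 0 ≤ 1 - r := by rw [← hr i]; have := wL_le_one ((B i).map Prod.snd); linarith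
    have := bd_step hL ih (pow_nonneg h0 _) _ (B i) rfl (hnd i) (by
        rintro x hx ⟨j, hj, y, hy, e⟩
        exact hdj i j (fun h => hi (h ▸ hj)) x hx y hy e.symm) S A hv
      (fun τ ⟨j, hj, h⟩ => hU ⟨j, mem_insert_of_mem hj, h⟩)
      (fun x hx => hU ⟨i, mem_insert_self _ _, x, hx, rfl⟩)
    rw [card_insert_of_notMem hi, pow_succ, hr i] at *
    refine le_trans (le_of_eq ?_) this
    congr 2
    ext p
    simp only [mem_filter, forall_mem_insert]
    tauto

end Pool.Agent.H755Z.Tree
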