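import Pool.Agent.H755Z.Tree.Det

/-! Counting the bad trees. -/

set_option autoImplicit false
set_option linter.unusedSectionVars false

namespace Pool.Agent.H755Z.Tree

open Finset Classical

variable {V : Type} [Fintype V] [DecidableEq V]

lemma card_FF_path {k : ℕ} (v : Fin (k + 1) ↪ V) :
    ((FF (SS v) (AA v)).card : ℝ) * (2 * Fintype.card V) =
      2 * (k + 1) * (2 * Fintype.card V : ℝ) ^ (Fintype.card V - (k + 1)) := by
  have hk : k + 1 ≤ Fintype.card V := by simpa using Fintype.card_le_of_embedding v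
  have := card_FF (2 * Fintype.card V) (SS v) (AA v) (by rw [card_SS, card_AA]; omega) (valid_SA v)
  rw [card_SS, card_AA] at this
  exact_mod_cast this

theorem total_ge (hn : 0 < Fintype.card V) :
    (2 * Fintype.card V : ℝ) ^ Fintype.card V ≤
      ((univ.filter (OT (V := V))).card : ℝ) * (2 * (Fintype.card V : ℝ) ^ 2) := by
  obtain ⟨r⟩ := Fintype.card_pos_iff.1 hn
  let v : Fin (0 + 1) ↪ V := ⟨fun _ => r, fun i j _ => Subsingleton.elim (α := Fin 1) _ _⟩
  let β : Fin 0 → Bool := fun _ => false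
  have h1 : (FF (SS v) (AA v)).card ≤ (univ.filter (OT (V := V))).card := by
    refine card_le_card_of_injOn (toE v β) ?_ ?_
    · intro p hp
      simp only [mem_coe, mem_FF] at hp
      simp only [coe_filter, mem_univ, true_and]
      exact ot_of_isF v β hp
    · intro p hp q hq e
      exact toE_inj v β (mem_FF.1 hp) (mem_FF.1 hq) e
  have h2 := card_FF_path v
  have h3 : ((FF (SS v) (AA v)).card : ℝ) ≤ (univ.filter (OT (V := V))).card := by exact_mod_cast h1
  obtain ⟨m, hm⟩ : ∃ m, Fintype.card V = m + 1 := ⟨Fintype.card V - 1, by omega⟩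
  rw [hm] at h2 ⊢
  simp only [zero_add, Nat.add_sub_cancel, Nat.cast_zero, mul_one] at h2
  have h4 : (0 : ℝ) < ((m + 1 : ℕ) : ℝ) := by positivity
  calc (2 * ((m + 1 : ℕ) : ℝ)) ^ (m + 1)
      = (2 * (2 * ((m + 1 : ℕ) : ℝ)) ^ m) * ((m + 1 : ℕ) : ℝ) := by ring
    _ = ((FF (SS v) (AA v)).card : ℝ) * (2 * ((m + 1 : ℕ) : ℝ) ^ 2) := by rw [← h2]; ring
    _ ≤ _ := by gcongr

noncomputable def pi0 : ℝ := wL (blkI.map Prod.snd)

lemma pi0_pos : 0 < pi0 := wL_pos _
lemma pi0_le : pi0 ≤ 1 := wL_le_one _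

lemma blkI_bound : ∀ y ∈ blkI, 1 ≤ y.1.1 ∧ y.1.1 ≤ 14 := by
  intro y hy
  obtain ⟨i, hi, h⟩ := List.mem_flatMap.1 hy
  have := List.mem_range.1 hi
  simp only [List.mem_cons, List.not_mem_nil, or_false] at h
  rcases h with rfl | rfl <;> simp <;> omega

lemma blkI_nodup : (blkI.map Prod.fst).Nodup := by decide

lemma count_fix {M : ℕ} (v : Fin (16 * M + 1) ↪ V) (J : Finset (Fin M)) :
    (((FF (SS v) (AA v)).filter (fun p => ∀ j ∈ J, ¬ MB p (blk (exV v) (16 * j)))).card : ℝ) ≤
      (1 - pi0) ^ J.card * Phi (Fintype.card V - (16 * M + 1)) (2 * (16 * M + 1)) := by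
  have h := (bd_multi (V := V) (fun j : Fin M => blk (exV v) (16 * j)) pi0
    (fun j => by simp [blk, pi0, Function.comp_def]) (fun j => by
      have e : (blk (exV v) (16 * j)).map Prod.fst =
          (blkI.map Prod.fst).map (fun y => (exV v (16 * j + y.1), y.2)) := by
        simp [blk, Function.comp_def]
      rw [e]
      refine List.Nodup.map_on ?_ blkI_nodup
      intro x hx y hy exy
      obtain ⟨x', hx', rfl⟩ := List.mem_map.1 hx
      obtain ⟨y', hy', rfl⟩ := List.mem_map.1 hy
      have h1 := blkI_bound _ hx'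
      have h2 := blkI_bound _ hy'
      have h3 := j.2
      simp only [Prod.mk.injEq] at exy
      have := exV_inj v (by omega) (by omega) exy.1
      exact Prod.ext (by omega) exy.2) (fun i j hij x hx y hy e => by
      obtain ⟨x', hx', rfl⟩ := List.mem_map.1 hx
      obtain ⟨y', hy', rfl⟩ := List.mem_map.1 hy
      have h1 := blkI_bound _ hx'
      have h2 := blkI_bound _ hy'
      have h3 := j.2
      have h4 := i.2
      simp only [Prod.mk.injEq] at e
      have := exV_inj v (by omega) (by omega) e.1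
      exact hij (Fin.ext (by omega))) J).2 (SS v) (AA v) (valid_SA v) (by
      rintro τ ⟨j, _, x, hx, rfl⟩
      obtain ⟨x', hx', rfl⟩ := List.mem_map.1 hx
      exact exV_mem_AA v _ _)
  rw [card_SS, card_AA] at h
  convert h

noncomputable def act {M : ℕ} (β : Fin (16 * M) → Bool) : Finset (Fin M) :=
  univ.filter (fun j : Fin M => ∀ i < 16, exB β (16 * j + i) = bK i)

lemma sum_act (M : ℕ) :
    ∑ β : Fin (16 * M) → Bool, (1 - pi0) ^ (act β).card ≤ (2 ^ 16 - pi0) ^ M := by
  let g : (Fin 16 → Bool) → ℝ := fun b => if b = (fun i : Fin 16 => bK i) then 1 - pi0 else 1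
  let Ψ : (Fin (16 * M) → Bool) → (Fin M → Fin 16 → Bool) := fun β j i => exB β (16 * j + i)
  have hg : ∀ b, 0 ≤ g b := by
    intro b; simp only [g]; have := pi0_le; split_ifs <;> linarith
  have h1 : ∀ β, (1 - pi0) ^ (act β).card = ∏ j, g (Ψ β j) := by
    intro β
    simp only [g]
    rw [prod_ite, prod_const, prod_const_one, mul_one]
    congr 2
    ext j
    simp only [act, mem_filter, mem_univ, true_and, Ψ, funext_iff]
    exact ⟨fun h i => h i i.2, fun h i hi => h ⟨i, hi⟩⟩
  have h2 : Function.Injective Ψ := by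
    intro β γ e
    funext t
    have ht := t.2
    have := congrFun (congrFun e ⟨t / 16, by omega⟩) ⟨t % 16, by omega⟩
    simp only [Ψ, exB] at this
    have e2 : 16 * (t / 16 : ℕ) + (t % 16 : ℕ) = t := Nat.div_add_mod _ _
    simp only [e2, ht, dif_pos] at this
    exact this
  have h3 : ∑ b, g b = 2 ^ 16 - pi0 := by
    have : ∀ b, g b = 1 - if b = (fun i : Fin 16 => bK i) then pi0 else 0 := by
      intro b; simp only [g]; split_ifs <;> simp
    rw [sum_congr rfl (fun b _ => this b), sum_sub_distrib, sum_ite_eq']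
    simp
    norm_num
  calc ∑ β : Fin (16 * M) → Bool, (1 - pi0) ^ (act β).card
      = ∑ β : Fin (16 * M) → Bool, ∏ j, g (Ψ β j) := sum_congr rfl fun β _ => h1 β
    _ = ∑ γ ∈ univ.image Ψ, ∏ j, g (γ j) := by
        rw [sum_image (fun a _ b _ e => h2 e)]
    _ ≤ ∑ γ : Fin M → Fin 16 → Bool, ∏ j, g (γ j) :=
        sum_le_sum_of_subset_of_nonneg (subset_univ _) fun γ _ _ => prod_nonneg fun j _ => hg _
    _ = (∑ b, g b) ^ M := by rw [sum_pow', Fintype.piFinset_univ]
    _ = _ := by rw [h3]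

theorem cntA (M : ℕ) : ((univ.filter (BadA (V := V) M)).card : ℝ) ≤
    (Fintype.card V).factorial * 2 ^ Fintype.card V * Real.exp (Fintype.card V) *
      (1 - pi0 / 2 ^ 16) ^ M := by
  have hsub : univ.filter (BadA (V := V) M) ⊆
      univ.biUnion (fun v : Fin (16 * M + 1) ↪ V => univ.biUnion (fun β : Fin (16 * M) → Bool =>
        ((FF (SS v) (AA v)).filter
          (fun p => ∀ j ∈ act β, ¬ MB p (blk (exV v) (16 * j)))).image (toE v β))) := by
    intro E hE
    obtain ⟨v, β, p, hp, e, h⟩ := (mem_filter.1 hE).2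
    simp only [mem_biUnion, mem_univ, true_and, mem_image, mem_filter, mem_FF]
    refine ⟨v, β, p, ⟨hp, fun j hj => h j j.2 ?_⟩, e.symm⟩
    simpa only [act, mem_filter, mem_univ, true_and] using hj
  have h1 : (univ.filter (BadA (V := V) M)).card ≤
      ∑ v : Fin (16 * M + 1) ↪ V, ∑ β : Fin (16 * M) → Bool, ((FF (SS v) (AA v)).filter
          (fun p => ∀ j ∈ act β, ¬ MB p (blk (exV v) (16 * j)))).card := by
    refine (card_le_card hsub).trans (card_biUnion_le.trans (sum_le_sum fun v _ => ?_))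
    exact card_biUnion_le.trans (sum_le_sum fun β _ => card_image_le)
  have hP := Phi_pos (Fintype.card V - (16 * M + 1)) (2 * (16 * M + 1))
  have h2 : ((univ.filter (BadA (V := V) M)).card : ℝ) ≤ ∑ v : Fin (16 * M + 1) ↪ V,
      (2 ^ 16 - pi0) ^ M * Phi (Fintype.card V - (16 * M + 1)) (2 * (16 * M + 1)) := by
    refine (Nat.cast_le.2 h1).trans ?_
    push_cast
    refine sum_le_sum fun v _ => ?_
    refine (sum_le_sum fun β _ => count_fix v (act β)).trans ?_
    rw [← sum_mul]
    exact mul_le_mul_of_nonneg_right (sum_act M) hP.le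
  refine h2.trans ?_
  rw [sum_const, card_univ, Fintype.card_embedding_eq, Fintype.card_fin, nsmul_eq_mul]
  have hq : 0 ≤ 1 - pi0 / 2 ^ 16 := by have := pi0_le; linarith
  set n := Fintype.card V
  by_cases hk : 16 * M + 1 ≤ n
  · obtain ⟨s, hs⟩ := Nat.exists_eq_add_of_le hk
    have e1 : n - (16 * M + 1) = s := by omega
    have e2 : (s.factorial : ℝ) * (n.descFactorial (16 * M + 1) : ℝ) = n.factorial := by
      have := Nat.factorial_mul_descFactorial hk
      rw [e1] at this
      exact_mod_cast this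
    have e3 : ((2 : ℝ) ^ 16 - pi0) ^ M = 2 ^ (16 * M) * (1 - pi0 / 2 ^ 16) ^ M := by
      rw [pow_mul, ← mul_pow]; congr 1; field_simp
    have e4 : (s : ℝ) + ((2 * (16 * M + 1) : ℕ) : ℝ) / 2 = n := by rw [hs]; push_cast; ring
    have e5 : (2 : ℝ) ^ n = 2 ^ (16 * M) * 2 * 2 ^ s := by rw [hs]; ring
    rw [e1, Phi, e3, e4, ← e2, e5]
    have : 0 ≤ (s.factorial : ℝ) * (n.descFactorial (16 * M + 1) : ℝ) * 2 ^ (16 * M) * 2 ^ s *
      Real.exp n * (1 - pi0 / 2 ^ 16) ^ M := by positivity
    linarith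
  · rw [Nat.descFactorial_of_lt (by omega)]
    simp only [Nat.cast_zero, zero_mul]
    positivity

lemma central_bound (k : ℕ) : (k.choose (k / 2)) ^ 2 * k ≤ 4 ^ k := by
  have h : ∀ a : ℕ, (Nat.centralBinom a) ^ 2 * (2 * a + 1) ≤ 16 ^ a := by
    intro a
    induction a with
    | zero => simp
    | succ a ih =>
      have e := Nat.succ_mul_centralBinom_succ a
      have h1 : (a + 1) ^ 2 * ((Nat.centralBinom (a + 1)) ^ 2 * (2 * (a + 1) + 1)) ≤
          (a + 1) ^ 2 * 16 ^ (a + 1) := by
        calc (a + 1) ^ 2 * ((Nat.centralBinom (a + 1)) ^ 2 * (2 * (a + 1) + 1))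
            = ((a + 1) * Nat.centralBinom (a + 1)) ^ 2 * (2 * a + 3) := by ring
          _ = ((Nat.centralBinom a) ^ 2 * (2 * a + 1)) * (4 * (2 * a + 1) * (2 * a + 3)) := by
            rw [e]; ring
          _ ≤ 16 ^ a * (16 * (a + 1) ^ 2) := Nat.mul_le_mul ih (by nlinarith)
          _ = _ := by ring
      exact Nat.le_of_mul_le_mul_left h1 (by positivity)
  rcases Nat.even_or_odd' k with ⟨a, rfl | rfl⟩
  · have := h a
    rw [Nat.mul_div_cancel_left _ (by norm_num), pow_mul]
    rw [Nat.centralBinom_eq_two_mul_choose] at this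
    calc _ ≤ ((2 * a).choose a) ^ 2 * (2 * a + 1) := by gcongr; omega
      _ ≤ _ := by simpa using this
  · have := h a
    have e : (2 * a + 1) / 2 = a := by omega
    rw [e]
    have h2 : (2 * a + 1).choose a ≤ 2 * Nat.centralBinom a := by
      rcases a with _ | a
      · simp
      · rw [Nat.choose_succ_succ', two_mul (Nat.centralBinom _)]
        exact Nat.add_le_add (Nat.choose_le_centralBinom _ _) (Nat.choose_le_centralBinom _ _)
    calc (2 * a + 1).choose a ^ 2 * (2 * a + 1)
        ≤ (2 * Nat.centralBinom a) ^ 2 * (2 * a + 1) := by gcongr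
      _ = 4 * ((Nat.centralBinom a) ^ 2 * (2 * a + 1)) := by ring
      _ ≤ 4 * 16 ^ a := by gcongr
      _ = 4 ^ (2 * a + 1) := by rw [pow_succ, pow_mul]; norm_num [mul_comm]

noncomputable def GG (D k : ℕ) : Finset (Fin k → Bool) :=
  univ.filter (fun β => |net k (exB β)| < D)

lemma net_eq {k : ℕ} (β : Fin k → Bool) :
    net k (exB β) = 2 * ((univ.filter (fun i => β i = true)).card : ℤ) - k := by
  unfold net
  rw [sum_range]
  have : ∀ i : Fin k, (if exB β i = true then (1 : ℤ) else -1) =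
      2 * (if β i = true then 1 else 0) - 1 := by
    intro i
    simp only [exB, i.2, dif_pos]
    split_ifs <;> simp
  rw [sum_congr rfl fun i _ => this i, sum_sub_distrib, ← mul_sum, sum_boole]
  simp

lemma card_GG (D k : ℕ) : (GG D k).card ≤ 2 * D * k.choose (k / 2) := by
  have h1 : (GG D k).card ≤ (k.choose (k / 2)) * (Ioo (-(D : ℤ)) D).card := by
    refine card_le_mul_card_image_of_maps_to (f := fun β => net k (exB β)) ?_ _ ?_
    · intro β hβ
      have := (mem_filter.1 hβ).2
      rw [abs_lt] at this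
      exact mem_Ioo.2 this
    · intro z _
      refine le_trans ?_ (Nat.choose_le_middle ((z + k) / 2).toNat k)
      have : k.choose ((z + k) / 2).toNat =
          (powersetCard ((z + k) / 2).toNat (univ : Finset (Fin k))).card := by simp
      rw [this]
      refine card_le_card_of_injOn (fun β => univ.filter (fun i => β i = true)) ?_ ?_
      · intro β hβ
        have h2 := (mem_filter.1 (mem_coe.1 hβ)).2
        rw [net_eq] at h2
        simp only [mem_coe, mem_powersetCard, subset_univ, true_and]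
        omega
      · intro β _ γ _ e
        funext i
        have := congrArg (fun s => i ∈ s) e
        simp only [mem_filter, mem_univ, true_and, eq_iff_iff] at this
        exact Bool.eq_iff_iff.2 this
  have h2 : (Ioo (-(D : ℤ)) D).card ≤ 2 * D := by
    rw [Int.card_Ioo]; omega
  calc _ ≤ _ := h1
    _ ≤ (k.choose (k / 2)) * (2 * D) := by gcongr
    _ = _ := by ring

lemma card_GG' (D k t : ℕ) (hk : t ^ 4 ≤ k) : (GG D k).card * t ^ 2 ≤ 2 * D * 2 ^ k := by
  have h1 : k.choose (k / 2) * t ^ 2 ≤ 2 ^ k := by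
    refine (Nat.pow_le_pow_iff_left (n := 2) (by norm_num)).1 ?_
    calc (k.choose (k / 2) * t ^ 2) ^ 2 = (k.choose (k / 2)) ^ 2 * t ^ 4 := by ring
      _ ≤ (k.choose (k / 2)) ^ 2 * k := by gcongr
      _ ≤ 4 ^ k := central_bound k
      _ = (2 ^ k) ^ 2 := by rw [← pow_mul, mul_comm, pow_mul]; norm_num
  calc (GG D k).card * t ^ 2 ≤ 2 * D * k.choose (k / 2) * t ^ 2 := by
        gcongr; exact card_GG D k
    _ = 2 * D * (k.choose (k / 2) * t ^ 2) := by ring
    _ ≤ _ := by gcongr

lemma card_GG_le (D k : ℕ) : (GG D k).card ≤ 2 ^ k := by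
  have := card_le_univ (GG D k)
  simpa using this

noncomputable def aa (n k : ℕ) : ℝ := (n.descFactorial (k + 1) : ℝ) * (k + 1) / (n : ℝ) ^ (k + 2)

lemma aa_nonneg (n k : ℕ) : 0 ≤ aa n k := by unfold aa; positivity

lemma aa_le {n : ℕ} (hn : 0 < n) (k : ℕ) : aa n k ≤ (k + 1) / n := by
  unfold aa
  have h : (n.descFactorial (k + 1) : ℝ) ≤ (n : ℝ) ^ (k + 1) := by
    exact_mod_cast Nat.descFactorial_le_pow n (k + 1)
  have hn' : (0 : ℝ) < n := by exact_mod_cast hn
  rw [div_le_div_iff₀ (by positivity) hn']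
  calc (n.descFactorial (k + 1) : ℝ) * (k + 1) * n ≤ (n : ℝ) ^ (k + 1) * (k + 1) * n := by gcongr
    _ = _ := by ring

lemma sum_aa {n : ℕ} (hn : 0 < n) : ∑ k ∈ range n, aa n k ≤ 1 := by
  have hn' : (0 : ℝ) < n := by exact_mod_cast hn
  have : ∀ m, m + 1 ≤ n → ∑ k ∈ range (m + 1), aa n k ≤
      1 - (n.descFactorial (m + 1) : ℝ) * ((n : ℝ) - (m + 1)) / (n : ℝ) ^ (m + 2) := by
    intro m
    induction m with
    | zero =>
      intro _
      simp only [aa, zero_add, range_one, sum_singleton, Nat.descFactorial_one]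
      apply le_of_eq; push_cast; field_simp; ring
    | succ m ih =>
      intro hm
      rw [sum_range_succ]
      have h1 := ih (by omega)
      have h2 : (n.descFactorial (m + 1 + 1) : ℝ) =
          ((n : ℝ) - (m + 1)) * n.descFactorial (m + 1) := by
        rw [Nat.descFactorial_succ, Nat.cast_mul, Nat.cast_sub (by omega)]; push_cast; ring
      have h3 : aa n (m + 1) = (n.descFactorial (m + 1) : ℝ) * ((n : ℝ) - (m + 1)) / (n : ℝ) ^ (m + 2)
          - (n.descFactorial (m + 1 + 1) : ℝ) * ((n : ℝ) - ((m + 1 : ℕ) + 1)) / (n : ℝ) ^ (m + 1 + 2) := by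
        unfold aa
        rw [h2]; push_cast; field_simp; ring
      rw [h3]; linarith
  obtain ⟨m, rfl⟩ : ∃ m, n = m + 1 := ⟨n - 1, by omega⟩
  have := this m le_rfl
  simpa using this

theorem cntB (hn : 0 < Fintype.card V) (D t : ℕ) (ht : 0 < t) :
    ((univ.filter (BadB (V := V) D)).card : ℝ) * (2 * (Fintype.card V : ℝ) ^ 2) ≤
      (2 * Fintype.card V : ℝ) ^ Fintype.card V *
        ((t : ℝ) ^ 8 / Fintype.card V + 2 * D / (t : ℝ) ^ 2) := by
  set n := Fintype.card V with hnV
  have hn' : (0 : ℝ) < n := by exact_mod_cast hn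
  have ht' : (0 : ℝ) < t := by exact_mod_cast ht
  have hsub : univ.filter (BadB (V := V) D) ×ˢ ((univ : Finset V) ×ˢ (univ : Finset V)) ⊆
      (range n).biUnion (fun k => univ.biUnion (fun v : Fin (k + 1) ↪ V =>
        (GG D k).biUnion (fun β => (FF (SS v) (AA v)).image
          (fun p => (toE v β p, exV v k, exV v 0))))) := by
    rintro ⟨E, r, x⟩ h
    have hE := (mem_filter.1 (mem_product.1 h).1).2
    obtain ⟨k, v, β, p, e1, e2, hp, e3, h4⟩ := hE r x
    have hk : k + 1 ≤ n := by simpa using Fintype.card_le_of_embedding v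
    simp only [mem_biUnion, mem_univ, true_and, mem_image, mem_FF, mem_range]
    refine ⟨k, hk, v, β, mem_filter.2 ⟨mem_univ _, h4⟩, p, hp, ?_⟩
    rw [e1, e2, ← e3]
  have h1 : (univ.filter (BadB (V := V) D)).card * (n * n) ≤
      ∑ k ∈ range n, ∑ v : Fin (k + 1) ↪ V, ∑ β ∈ GG D k, (FF (SS v) (AA v)).card := by
    have := card_le_card hsub
    rw [card_product, card_product, card_univ] at this
    refine this.trans (card_biUnion_le.trans (sum_le_sum fun k _ => ?_))
    refine card_biUnion_le.trans (sum_le_sum fun v _ => ?_)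
    exact card_biUnion_le.trans (sum_le_sum fun β _ => card_image_le)
  have h2 : ((univ.filter (BadB (V := V) D)).card : ℝ) * (2 * (n : ℝ) ^ 2) ≤
      ∑ k ∈ range n, (2 * n : ℝ) ^ n * (aa n k * (((GG D k).card : ℝ) / 2 ^ k)) := by
    have h3 : (((univ.filter (BadB (V := V) D)).card * (n * n) : ℕ) : ℝ) ≤ _ := Nat.cast_le.2 h1
    push_cast at h3
    have : ((univ.filter (BadB (V := V) D)).card : ℝ) * (2 * (n : ℝ) ^ 2) =
      2 * (((univ.filter (BadB (V := V) D)).card : ℝ) * (n * n)) := by ring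
    rw [this]
    refine (mul_le_mul_of_nonneg_left h3 (by norm_num)).trans (le_of_eq ?_)
    rw [mul_sum]
    refine sum_congr rfl fun k hk => ?_
    have hk' := mem_range.1 hk
    have h4 : ∀ v : Fin (k + 1) ↪ V, ((FF (SS v) (AA v)).card : ℝ) =
        (k + 1) * (2 * n : ℝ) ^ (n - (k + 1)) / n := by
      intro v
      have := card_FF_path v
      rw [← hnV] at this
      field_simp
      linarith
    simp only [h4, sum_const, card_univ, Fintype.card_embedding_eq, Fintype.card_fin, nsmul_eq_mul]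
    rw [← hnV]
    have h5 : (2 * n : ℝ) ^ n = (2 * n : ℝ) ^ (k + 1) * (2 * n : ℝ) ^ (n - (k + 1)) := by
      rw [← pow_add]; congr 1; omega
    rw [h5]
    unfold aa
    rw [mul_pow]
    field_simp
    ring
  refine h2.trans ?_
  rw [← mul_sum]
  refine mul_le_mul_of_nonneg_left ?_ (by positivity)
  have h6 : ∀ k ∈ range n, aa n k * (((GG D k).card : ℝ) / 2 ^ k) ≤
      (if k < t ^ 4 then (t : ℝ) ^ 4 / n else 0) + aa n k * (2 * D / (t : ℝ) ^ 2) := by
    intro k _
    have ha := aa_nonneg n k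
    split_ifs with h
    · have e1 : ((GG D k).card : ℝ) / 2 ^ k ≤ 1 := by
        rw [div_le_one (by positivity)]; exact_mod_cast card_GG_le D k
      have e2 : aa n k ≤ (t : ℝ) ^ 4 / n := by
        refine (aa_le hn k).trans ?_
        gcongr
        exact_mod_cast h
      have e3 : 0 ≤ aa n k * (2 * D / (t : ℝ) ^ 2) := by positivity
      nlinarith
    · rw [zero_add]
      refine mul_le_mul_of_nonneg_left ?_ ha
      rw [div_le_div_iff₀ (by positivity) (by positivity)]
      exact_mod_cast card_GG' D k t (by omega)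
  refine (sum_le_sum h6).trans ?_
  rw [sum_add_distrib, ← sum_mul]
  refine add_le_add ?_ ?_
  · rw [← sum_filter, sum_const, nsmul_eq_mul]
    have : (((range n).filter (fun k => k < t ^ 4)).card : ℝ) ≤ (t : ℝ) ^ 4 := by
      have : ((range n).filter (fun k => k < t ^ 4)).card ≤ (range (t ^ 4)).card :=
        card_le_card fun k hk => mem_range.2 (mem_filter.1 hk).2
      rw [card_range] at this
      exact_mod_cast this
    calc _ ≤ (t : ℝ) ^ 4 * ((t : ℝ) ^ 4 / n) := by gcongr
      _ = _ := by ring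
  · have := sum_aa hn
    have h7 : (0 : ℝ) ≤ 2 * D / (t : ℝ) ^ 2 := by positivity
    nlinarith

end Pool.Agent.H755Z.Tree
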