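import Mathlib

/-! A locally closed copy of a 22 vertex triad has no Siggers operation that is idempotent on
its spine. -/

set_option autoImplicit false

namespace Pool.Agent.H755Z.Tree

/-- arcs of the pattern; 0..15 is the spine, 16..21 the pendant arm at 8 -/
def EK : List (ℕ × ℕ) :=
  [(0, 1), (1, 2), (2, 3), (3, 4), (5, 4), (6, 5), (6, 7), (8, 7), (9, 8), (9, 10), (11, 10),
   (11, 12), (12, 13), (13, 14), (14, 15), (8, 16), (17, 16), (18, 17), (18, 19), (19, 20),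
   (20, 21)]

def inner (k : ℕ) : Bool := k != 0 && k != 15 && k < 22

abbrev Rl := List (ℕ × ℕ)

def rup (R : Rl) : Rl :=
  if R.all (fun p => inner p.2) then
    (R.flatMap (fun p => (EK.filter (fun e => e.1 == p.2)).map (fun e => (p.1, e.2)))).eraseDups
  else []

def rdn (R : Rl) : Rl :=
  if R.all (fun p => inner p.2) then
    (R.flatMap (fun p => (EK.filter (fun e => e.2 == p.2)).map (fun e => (p.1, e.1)))).eraseDups
  else []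

def rcomp (R S : Rl) : Rl :=
  (R.flatMap (fun p => (S.filter (fun e => e.1 == p.2)).map (fun e => (p.1, e.2)))).eraseDups

def rinter (R S : Rl) : Rl := R.filter (fun p => S.contains p)

def rconv (R : Rl) : Rl := R.map (fun p => (p.2, p.1))

def rrng (R : Rl) : Rl := (R.map (fun p => (p.2, p.2))).eraseDups

def rword (R : Rl) : List Bool → Rl
  | [] => R
  | b :: w => rword (if b then rup R else rdn R) w

structure Loc (V : Type) (E : V → V → Prop) (φ : ℕ → V) (s : V → V → V → V → V) : Prop where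
  inj : ∀ i < 22, ∀ j < 22, φ i = φ j → i = j
  hom : ∀ e ∈ EK, E (φ e.1) (φ e.2)
  out : ∀ i, inner i = true → ∀ y, E (φ i) y → ∃ j, (i, j) ∈ EK ∧ y = φ j
  inn : ∀ i, inner i = true → ∀ y, E y (φ i) → ∃ j, (j, i) ∈ EK ∧ y = φ j
  pol : ∀ x₁ x₂ x₃ x₄ y₁ y₂ y₃ y₄, E x₁ y₁ → E x₂ y₂ → E x₃ y₃ → E x₄ y₄ →
    E (s x₁ x₂ x₃ x₄) (s y₁ y₂ y₃ y₄)

variable {V : Type} {E : V → V → Prop} {φ : ℕ → V} {s : V → V → V → V → V}

def Inv (φ : ℕ → V) (s : V → V → V → V → V) (R : Rl) : Prop :=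
  (∀ p ∈ R, p.1 < 22 ∧ p.2 < 22) ∧
  ∀ p₁ ∈ R, ∀ p₂ ∈ R, ∀ p₃ ∈ R, ∀ p₄ ∈ R, ∃ p ∈ R,
    s (φ p₁.1) (φ p₂.1) (φ p₃.1) (φ p₄.1) = φ p.1 ∧ s (φ p₁.2) (φ p₂.2) (φ p₃.2) (φ p₄.2) = φ p.2

lemma EK_lt : ∀ e ∈ EK, e.1 < 22 ∧ e.2 < 22 := by decide

lemma inv_nil : Inv φ s [] := ⟨by simp, by simp⟩

lemma mem_rup {R : Rl} (h : R.all (fun p => inner p.2) = true) (q : ℕ × ℕ) :
    q ∈ rup R ↔ ∃ y, (q.1, y) ∈ R ∧ (y, q.2) ∈ EK := by
  unfold rup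
  rw [if_pos h, List.mem_eraseDups]
  simp only [List.mem_flatMap, List.mem_map, List.mem_filter, beq_iff_eq]
  constructor
  · rintro ⟨p, hp, e, ⟨he, h1⟩, rfl⟩
    exact ⟨p.2, hp, by rw [← h1]; exact he⟩
  · rintro ⟨y, h1, h2⟩
    exact ⟨(q.1, y), h1, (y, q.2), ⟨h2, rfl⟩, rfl⟩

lemma mem_rdn {R : Rl} (h : R.all (fun p => inner p.2) = true) (q : ℕ × ℕ) :
    q ∈ rdn R ↔ ∃ y, (q.1, y) ∈ R ∧ (q.2, y) ∈ EK := by
  unfold rdn
  rw [if_pos h, List.mem_eraseDups]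
  simp only [List.mem_flatMap, List.mem_map, List.mem_filter, beq_iff_eq]
  constructor
  · rintro ⟨p, hp, e, ⟨he, h1⟩, rfl⟩
    exact ⟨p.2, hp, by rw [← h1]; exact he⟩
  · rintro ⟨y, h1, h2⟩
    exact ⟨(q.1, y), h1, (q.2, y), ⟨h2, rfl⟩, rfl⟩

lemma mem_rcomp {R S : Rl} (q : ℕ × ℕ) :
    q ∈ rcomp R S ↔ ∃ y, (q.1, y) ∈ R ∧ (y, q.2) ∈ S := by
  unfold rcomp
  rw [List.mem_eraseDups]
  simp only [List.mem_flatMap, List.mem_map, List.mem_filter, beq_iff_eq]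
  constructor
  · rintro ⟨p, hp, e, ⟨he, h1⟩, rfl⟩
    exact ⟨p.2, hp, by rw [← h1]; exact he⟩
  · rintro ⟨y, h1, h2⟩
    exact ⟨(q.1, y), h1, (y, q.2), ⟨h2, rfl⟩, rfl⟩

lemma inv_up (L : Loc V E φ s) {R : Rl} (h : Inv φ s R) : Inv φ s (rup R) := by
  by_cases ha : R.all (fun p => inner p.2) = true
  · refine ⟨fun q hq => ?_, fun q₁ h₁ q₂ h₂ q₃ h₃ q₄ h₄ => ?_⟩
    · obtain ⟨y, h1, h2⟩ := (mem_rup ha q).1 hq
      exact ⟨(h.1 _ h1).1, (EK_lt _ h2).2⟩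
    · obtain ⟨y₁, a₁, b₁⟩ := (mem_rup ha _).1 h₁
      obtain ⟨y₂, a₂, b₂⟩ := (mem_rup ha _).1 h₂
      obtain ⟨y₃, a₃, b₃⟩ := (mem_rup ha _).1 h₃
      obtain ⟨y₄, a₄, b₄⟩ := (mem_rup ha _).1 h₄
      obtain ⟨p, hp, e1, e2⟩ := h.2 _ a₁ _ a₂ _ a₃ _ a₄
      have hE := L.pol _ _ _ _ _ _ _ _ (L.hom _ b₁) (L.hom _ b₂) (L.hom _ b₃) (L.hom _ b₄)
      simp only at hE e1 e2
      rw [e2] at hE
      obtain ⟨j, hj, e3⟩ := L.out p.2 (List.all_eq_true.1 ha p hp) _ hE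
      exact ⟨(p.1, j), (mem_rup ha _).2 ⟨p.2, hp, hj⟩, e1, e3⟩
  · unfold rup; rw [if_neg ha]; exact inv_nil

lemma inv_dn (L : Loc V E φ s) {R : Rl} (h : Inv φ s R) : Inv φ s (rdn R) := by
  by_cases ha : R.all (fun p => inner p.2) = true
  · refine ⟨fun q hq => ?_, fun q₁ h₁ q₂ h₂ q₃ h₃ q₄ h₄ => ?_⟩
    · obtain ⟨y, h1, h2⟩ := (mem_rdn ha q).1 hq
      exact ⟨(h.1 _ h1).1, (EK_lt _ h2).1⟩
    · obtain ⟨y₁, a₁, b₁⟩ := (mem_rdn ha _).1 h₁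
      obtain ⟨y₂, a₂, b₂⟩ := (mem_rdn ha _).1 h₂
      obtain ⟨y₃, a₃, b₃⟩ := (mem_rdn ha _).1 h₃
      obtain ⟨y₄, a₄, b₄⟩ := (mem_rdn ha _).1 h₄
      obtain ⟨p, hp, e1, e2⟩ := h.2 _ a₁ _ a₂ _ a₃ _ a₄
      have hE := L.pol _ _ _ _ _ _ _ _ (L.hom _ b₁) (L.hom _ b₂) (L.hom _ b₃) (L.hom _ b₄)
      simp only at hE e1 e2
      rw [e2] at hE
      obtain ⟨j, hj, e3⟩ := L.inn p.2 (List.all_eq_true.1 ha p hp) _ hE
      exact ⟨(p.1, j), (mem_rdn ha _).2 ⟨p.2, hp, hj⟩, e1, e3⟩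
  · unfold rdn; rw [if_neg ha]; exact inv_nil

lemma inv_word (L : Loc V E φ s) (w : List Bool) : ∀ {R : Rl}, Inv φ s R → Inv φ s (rword R w) := by
  induction w with
  | nil => intro R h; exact h
  | cons b w ih =>
    intro R h
    unfold rword
    apply ih
    cases b
    · simpa using inv_dn L h
    · simpa using inv_up L h

lemma inv_comp (L : Loc V E φ s) {R S : Rl} (h : Inv φ s R) (g : Inv φ s S) :
    Inv φ s (rcomp R S) := by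
  refine ⟨fun q hq => ?_, fun q₁ h₁ q₂ h₂ q₃ h₃ q₄ h₄ => ?_⟩
  · obtain ⟨y, h1, h2⟩ := (mem_rcomp q).1 hq
    exact ⟨(h.1 _ h1).1, (g.1 _ h2).2⟩
  · obtain ⟨y₁, a₁, b₁⟩ := (mem_rcomp _).1 h₁
    obtain ⟨y₂, a₂, b₂⟩ := (mem_rcomp _).1 h₂
    obtain ⟨y₃, a₃, b₃⟩ := (mem_rcomp _).1 h₃
    obtain ⟨y₄, a₄, b₄⟩ := (mem_rcomp _).1 h₄
    obtain ⟨p, hp, e1, e2⟩ := h.2 _ a₁ _ a₂ _ a₃ _ a₄
    obtain ⟨p', hp', e3, e4⟩ := g.2 _ b₁ _ b₂ _ b₃ _ b₄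
    simp only at e1 e2 e3 e4
    have : p.2 = p'.1 := L.inj _ (h.1 _ hp).2 _ (g.1 _ hp').1 (e2.symm.trans e3)
    refine ⟨(p.1, p'.2), (mem_rcomp _).2 ⟨p.2, hp, ?_⟩, e1, e4⟩
    rw [this]; exact hp'

lemma inv_inter (L : Loc V E φ s) {R S : Rl} (h : Inv φ s R) (g : Inv φ s S) :
    Inv φ s (rinter R S) := by
  have hm : ∀ q, q ∈ rinter R S ↔ q ∈ R ∧ q ∈ S := by
    intro q; simp [rinter]
  refine ⟨fun q hq => h.1 _ ((hm q).1 hq).1, fun q₁ h₁ q₂ h₂ q₃ h₃ q₄ h₄ => ?_⟩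
  rw [hm] at h₁ h₂ h₃ h₄
  obtain ⟨p, hp, e1, e2⟩ := h.2 _ h₁.1 _ h₂.1 _ h₃.1 _ h₄.1
  obtain ⟨p', hp', e3, e4⟩ := g.2 _ h₁.2 _ h₂.2 _ h₃.2 _ h₄.2
  have i1 : p.1 = p'.1 := L.inj _ (h.1 _ hp).1 _ (g.1 _ hp').1 (e1.symm.trans e3)
  have i2 : p.2 = p'.2 := L.inj _ (h.1 _ hp).2 _ (g.1 _ hp').2 (e2.symm.trans e4)
  have : p = p' := Prod.ext i1 i2
  exact ⟨p, (hm p).2 ⟨hp, this ▸ hp'⟩, e1, e2⟩

lemma inv_conv {R : Rl} (h : Inv φ s R) : Inv φ s (rconv R) := by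
  have hm : ∀ q : ℕ × ℕ, q ∈ rconv R ↔ (q.2, q.1) ∈ R := by
    intro q
    simp only [rconv, List.mem_map]
    constructor
    · rintro ⟨p, hp, rfl⟩; exact hp
    · intro hq; exact ⟨_, hq, rfl⟩
  refine ⟨fun q hq => (h.1 _ ((hm q).1 hq)).symm, fun q₁ h₁ q₂ h₂ q₃ h₃ q₄ h₄ => ?_⟩
  rw [hm] at h₁ h₂ h₃ h₄
  obtain ⟨p, hp, e1, e2⟩ := h.2 _ h₁ _ h₂ _ h₃ _ h₄
  exact ⟨(p.2, p.1), (hm _).2 hp, e2, e1⟩

lemma inv_rng {R : Rl} (h : Inv φ s R) : Inv φ s (rrng R) := by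
  have hm : ∀ q : ℕ × ℕ, q ∈ rrng R ↔ ∃ p ∈ R, (p.2, p.2) = q := by
    intro q
    simp only [rrng, List.mem_eraseDups, List.mem_map]
  refine ⟨fun q hq => ?_, fun q₁ h₁ q₂ h₂ q₃ h₃ q₄ h₄ => ?_⟩
  · obtain ⟨p, hp, rfl⟩ := (hm q).1 hq
    exact ⟨(h.1 _ hp).2, (h.1 _ hp).2⟩
  · obtain ⟨p₁, a₁, rfl⟩ := (hm _).1 h₁
    obtain ⟨p₂, a₂, rfl⟩ := (hm _).1 h₂
    obtain ⟨p₃, a₃, rfl⟩ := (hm _).1 h₃
    obtain ⟨p₄, a₄, rfl⟩ := (hm _).1 h₄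
    obtain ⟨p, hp, -, e2⟩ := h.2 _ a₁ _ a₂ _ a₃ _ a₄
    exact ⟨(p.2, p.2), (hm _).2 ⟨p, hp, rfl⟩, e2, e2⟩

lemma inv_const {c : ℕ} (hc : c < 22) (h : s (φ c) (φ c) (φ c) (φ c) = φ c) :
    Inv φ s [(c, c)] := by
  refine ⟨by simp [hc], ?_⟩
  simp [h]

lemma inv_perm {R S : Rl} (h : Inv φ s R) (e : ∀ q, q ∈ R ↔ q ∈ S) : Inv φ s S := by
  refine ⟨fun q hq => h.1 _ ((e q).2 hq), fun q₁ h₁ q₂ h₂ q₃ h₃ q₄ h₄ => ?_⟩
  obtain ⟨p, hp, e1⟩ := h.2 _ ((e _).2 h₁) _ ((e _).2 h₂) _ ((e _).2 h₃) _ ((e _).2 h₄)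
  exact ⟨p, (e p).1 hp, e1⟩

lemma inv_of_eq {R S : Rl} (h : Inv φ s R) (e : (R.all S.contains && S.all R.contains) = true) :
    Inv φ s S := by
  rw [Bool.and_eq_true, List.all_eq_true, List.all_eq_true] at e
  refine inv_perm h fun q => ⟨fun hq => ?_, fun hq => ?_⟩
  · simpa using e.1 q hq
  · simpa using e.2 q hq

theorem hard (L : Loc V E φ s) (hsig : ∀ a r e, s a r e a = s r a r e)
    (hid : ∀ i < 16, s (φ i) (φ i) (φ i) (φ i) = φ i) : False := by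
  have c4 : Inv φ s [(4, 4)] := inv_const (by norm_num) (hid 4 (by norm_num))
  have c8 : Inv φ s [(8, 8)] := inv_const (by norm_num) (hid 8 (by norm_num))
  have c14 : Inv φ s [(14, 14)] := inv_const (by norm_num) (hid 14 (by norm_num))
  have hA : Inv φ s [(4, 4), (14, 14), (21, 21)] :=
    inv_of_eq (inv_rng (inv_word L
      [true, false, false, true, false, true, true, false, true, true] c8)) (by decide +kernel)
  have r0 : Inv φ s [(4, 4), (4, 21), (14, 14), (21, 21)] :=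
    inv_of_eq (inv_word L
      [false, false, true, false, true, false, false, true, true, true] hA) (by decide +kernel)
  have r8 : Inv φ s [(4, 4), (4, 14), (14, 14), (21, 21)] :=
    inv_of_eq (inv_word L
      [false, false, true, false, false, true, false, true, true, true] hA) (by decide +kernel)
  have r2 : Inv φ s [(4, 4), (14, 14), (14, 21), (21, 21)] :=
    inv_of_eq (inv_word L
      [false, false, false, true, false, true, true, false, false, true, true, true] hA)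
      (by decide +kernel)
  have r10 : Inv φ s [(4, 4), (4, 14), (4, 21), (14, 21), (21, 4), (21, 14), (21, 21)] :=
    inv_of_eq (inv_comp L (inv_comp L (inv_conv r0) (inv_comp L r2 r0))
      (inv_comp L (inv_rng (inv_comp L c4 r0)) r8)) (by decide +kernel)
  have r17 : Inv φ s [(4, 14), (4, 21), (14, 14), (14, 21), (21, 4)] :=
    inv_of_eq (inv_comp L (inv_comp L r8 (inv_conv
      (inv_inter L (inv_comp L (inv_comp L r8 c14) r2) r0))) r2) (by decide +kernel)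
  have r18 : Inv φ s [(4, 14), (4, 21), (14, 21), (21, 4)] :=
    inv_of_eq (inv_inter L r10 r17) (by decide +kernel)
  obtain ⟨p, hp, e1, e2⟩ := r18.2 (4, 21) (by simp) (21, 4) (by simp) (14, 21) (by simp) (4, 14)
    (by simp)
  simp only at e1 e2
  rw [hsig] at e1
  have := L.inj _ (r18.1 p hp).1 _ (r18.1 p hp).2 (e1.symm.trans e2)
  simp only [List.mem_cons, List.not_mem_nil, or_false] at hp
  rcases hp with rfl | rfl | rfl | rfl <;> simp at this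

end Pool.Agent.H755Z.Tree
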