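import Pool.Agent.H755Z.Tree.Enc
import Pool.Agent.H755Z.Tree.Bound
import Pool.Agent.H755Z.Tree.Hard

/-! The deterministic part: a tree with a Siggers polymorphism is flat or has a long path
avoiding the pattern. -/

set_option autoImplicit false
set_option linter.unusedSectionVars false

namespace Pool.Agent.H755Z.Tree

open Finset Classical

variable {V : Type} [Fintype V] [DecidableEq V]

def Pol (E : V → V → Bool) (s : V → V → V → V → V) : Prop :=
  ∀ x₁ x₂ x₃ x₄ y₁ y₂ y₃ y₄ : V, E x₁ y₁ = true → E x₂ y₂ = true → E x₃ y₃ = true →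
    E x₄ y₄ = true → E (s x₁ x₂ x₃ x₄) (s y₁ y₂ y₃ y₄) = true

def Sig (E : V → V → Bool) : Prop :=
  ∃ s : V → V → V → V → V, (∀ a r e, s a r e a = s r a r e) ∧ Pol E s

lemma exists_idem (e : V → V) : ∃ j, ∀ x, e^[j + 1] (e^[j + 1] x) = e^[j + 1] x := by
  obtain ⟨i, j, hij, h⟩ : ∃ i j : ℕ, i < j ∧ e^[i] = e^[j] := by
    obtain ⟨i, j, hne, h⟩ := Finite.exists_ne_map_eq_of_infinite (fun n : ℕ => e^[n])
    rcases lt_or_gt_of_ne hne with h1 | h1
    · exact ⟨i, j, h1, h⟩
    · exact ⟨j, i, h1, h.symm⟩
  obtain ⟨c, rfl⟩ := Nat.exists_eq_add_of_lt hij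
  have h1 : ∀ t, e^[i + t * (c + 1)] = e^[i] := by
    intro t
    induction t with
    | zero => simp
    | succ t ih =>
      have : i + (t + 1) * (c + 1) = t * (c + 1) + (i + c + 1) := by ring
      rw [this, Function.iterate_add, ← h, ← Function.iterate_add, add_comm, ih]
  have h2 : (i + 1) * (c + 1) = (i * c + c + i) + 1 := by ring
  refine ⟨i * c + c + i, fun x => ?_⟩
  rw [← Function.iterate_add_apply]
  have h3 : i * c + c + i + 1 + (i * c + c + i + 1) =
      (i * c + c + 1) + (i + (i + 1) * (c + 1)) := by ring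
  have h4 : i * c + c + 1 + i = i * c + c + i + 1 := by ring
  rw [h3, Function.iterate_add, h1, ← Function.iterate_add, h4]

lemma sig_idem {E : V → V → Bool} (h : Sig E) : ∃ s : V → V → V → V → V,
    (∀ a r e, s a r e a = s r a r e) ∧ Pol E s ∧
      ∀ x, s (s x x x x) (s x x x x) (s x x x x) (s x x x x) = s x x x x := by
  obtain ⟨s, h1, h2⟩ := h
  obtain ⟨j, hj⟩ := exists_idem (fun x => s x x x x)
  have h3 : ∀ n a b, E a b = true →
      E ((fun x => s x x x x)^[n] a) ((fun x => s x x x x)^[n] b) = true := by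
    intro n
    induction n with
    | zero => intro a b h; exact h
    | succ n ih =>
      intro a b h
      rw [Function.iterate_succ_apply, Function.iterate_succ_apply]
      exact ih _ _ (h2 _ _ _ _ _ _ _ _ h h h h)
  refine ⟨fun a b c d => (fun x => s x x x x)^[j] (s a b c d), fun a r e => by simp only [h1 a r e],
    fun _ _ _ _ _ _ _ _ a b c d => h3 _ _ _ (h2 _ _ _ _ _ _ _ _ a b c d), fun x => hj x⟩

def bK (i : ℕ) : Bool :=
  [true, true, true, true, false, false, true, false, false, true, false, true, true, true,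
    true].getD i false

def armSp : Sp := .one .emp (.one .emp (.one (.one (.one (.one .emp .emp) .emp) .emp) .emp))

def blkI : List ((ℕ × Bool) × Sp) :=
  (List.range 14).flatMap (fun i =>
    [((i + 1, false), if i = 7 then armSp else .emp), ((i + 1, true), .emp)])

def blk (w : ℕ → V) (o : ℕ) : Blk V := blkI.map (fun y => ((w (o + y.1.1), y.1.2), y.2))

lemma bK_EK : ∀ i < 15, (bK i = true → (i, i + 1) ∈ EK) ∧ (bK i = false → (i + 1, i) ∈ EK) := by
  decide

theorem no_block {k : ℕ} (v : Fin (k + 1) ↪ V) (β : Fin k → Bool) {p : PF V}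
    (hp : IsF (SS v) (AA v) p) (o : ℕ) (ho : o + 15 ≤ k)
    (hb : ∀ i < 15, exB β (o + i) = bK i) (hM : MB p (blk (exV v) o))
    {s : V → V → V → V → V} (hs : Pol (toE v β p) s) (hsig : ∀ a r e, s a r e a = s r a r e)
    (hid : ∀ i ≤ k, s (exV v i) (exV v i) (exV v i) (exV v i) = exV v i) : False := by
  set w := exV v with hw
  have hnone : ∀ i, p (w i) = none := fun i => hp.1 _ (exV_not_mem v i)
  have hinj : ∀ i ≤ k, ∀ j ≤ k, w i = w j → i = j := fun i hi j hj h => exV_inj v hi hj h
  have hM' : ∀ y ∈ blkI, Mt p y.2 (w (o + y.1.1), y.1.2) := fun y hy =>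
    hM _ (List.mem_map_of_mem (f := fun y : (ℕ × Bool) × Sp => ((w (o + y.1.1), y.1.2), y.2)) hy)
  have hT : ∀ i, 1 ≤ i → i ≤ 14 → ∀ y, p y ≠ some (w (o + i), true) := by
    intro i h1 h2
    have : ((i, true), Sp.emp) ∈ blkI := by
      refine List.mem_flatMap.2 ⟨i - 1, List.mem_range.2 (by omega), ?_⟩
      rw [Nat.sub_add_cancel h1]; simp
    exact hM' _ this
  have hF : ∀ i, 1 ≤ i → i ≤ 14 → i ≠ 8 → ∀ y, p y ≠ some (w (o + i), false) := by
    intro i h1 h2 h3
    have : ((i, false), Sp.emp) ∈ blkI := by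
      refine List.mem_flatMap.2 ⟨i - 1, List.mem_range.2 (by omega), ?_⟩
      rw [Nat.sub_add_cancel h1, if_neg (by omega)]; simp
    exact hM' _ this
  have hA : Mt p armSp (w (o + 8), false) :=
    hM' ((8, false), armSp) (List.mem_flatMap.2 ⟨7, by simp, by simp⟩)
  simp only [armSp, Mt] at hA
  obtain ⟨c16, e16, u16, n16, c17, e17, u17, n17, c18, e18, u18,
    ⟨c19, e19, u19, ⟨c20, e20, u20, ⟨c21, e21, u21, n21, m21⟩, n20⟩, n19⟩, n18⟩ := hA
  obtain ⟨rk, hr⟩ := hp.2.2
  have r17 := hr _ _ e17
  have r18 := hr _ _ e18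
  have r19 := hr _ _ e19
  have r20 := hr _ _ e20
  have r21 := hr _ _ e21
  simp only at r17 r18 r19 r20 r21
  let φ : ℕ → V := fun i => if i < 16 then w (o + i) else if i = 16 then c16 else
    if i = 17 then c17 else if i = 18 then c18 else if i = 19 then c19 else
    if i = 20 then c20 else c21
  have φp : ∀ i < 16, φ i = w (o + i) := fun i hi => if_pos hi
  have φ16 : φ 16 = c16 := rfl
  have φ17 : φ 17 = c17 := rfl
  have φ18 : φ 18 = c18 := rfl
  have φ19 : φ 19 = c19 := rfl
  have φ20 : φ 20 = c20 := rfl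
  have φ21 : φ 21 = c21 := rfl
  have hsome : ∀ i, 16 ≤ i → i < 22 → p (φ i) ≠ none := by
    intro i h1 h2
    interval_cases i
    · rw [φ16, e16]; simp
    · rw [φ17, e17]; simp
    · rw [φ18, e18]; simp
    · rw [φ19, e19]; simp
    · rw [φ20, e20]; simp
    · rw [φ21, e21]; simp
  have hE : ∀ x y, toE v β p x y = true ↔ EE k w (exB β) p x y := by
    intro x y; simp [toE, hw]
  have hnw : ∀ i, 16 ≤ i → i < 22 → ∀ t, w t ≠ φ i := by
    intro i h1 h2 t e
    exact hsome i h1 h2 (e ▸ hnone t)
  refine hard (E := fun x y => toE v β p x y = true) (φ := φ) (s := s) ⟨?_, ?_, ?_, ?_, hs⟩ hsig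
    (fun i hi => by rw [φp i hi]; exact hid _ (by omega))
  · intro i hi j hj e
    by_cases h1 : i < 16 <;> by_cases h2 : j < 16
    · rw [φp i h1, φp j h2] at e
      have := hinj _ (by omega) _ (by omega) e
      omega
    · rw [φp i h1] at e
      exact absurd e (hnw j (by omega) hj _)
    · rw [φp j h2] at e
      exact absurd e.symm (hnw i (by omega) hi _)
    · have e' := congrArg rk e
      push Not at h1 h2
      interval_cases i <;> interval_cases j <;>
        simp only [φ16, φ17, φ18, φ19, φ20, φ21] at e' <;> omega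
  · have h1 : ∀ i < 15, bK i = true → toE v β p (φ i) (φ (i + 1)) = true := by
      intro i hi h
      rw [hE, φp i (by omega), φp (i + 1) (by omega)]
      exact Or.inr (Or.inr ⟨o + i, by omega, Or.inl ⟨rfl, rfl, by rw [hb i hi, h]⟩⟩)
    have h2 : ∀ i < 15, bK i = false → toE v β p (φ (i + 1)) (φ i) = true := by
      intro i hi h
      rw [hE, φp i (by omega), φp (i + 1) (by omega)]
      exact Or.inr (Or.inr ⟨o + i, by omega, Or.inr ⟨rfl, rfl, by rw [hb i hi, h]⟩⟩)
    intro e he
    simp only [EK, List.mem_cons, List.not_mem_nil, or_false] at he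
    rcases he with rfl | rfl | rfl | rfl | rfl | rfl | rfl | rfl | rfl | rfl | rfl | rfl | rfl |
      rfl | rfl | rfl | rfl | rfl | rfl | rfl | rfl
    · exact h1 0 (by norm_num) rfl
    · exact h1 1 (by norm_num) rfl
    · exact h1 2 (by norm_num) rfl
    · exact h1 3 (by norm_num) rfl
    · exact h2 4 (by norm_num) rfl
    · exact h2 5 (by norm_num) rfl
    · exact h1 6 (by norm_num) rfl
    · exact h2 7 (by norm_num) rfl
    · exact h2 8 (by norm_num) rfl
    · exact h1 9 (by norm_num) rfl
    · exact h2 10 (by norm_num) rfl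
    · exact h1 11 (by norm_num) rfl
    · exact h1 12 (by norm_num) rfl
    · exact h1 13 (by norm_num) rfl
    · exact h1 14 (by norm_num) rfl
    · exact (hE _ _).2 (Or.inr (Or.inl e16))
    · exact (hE _ _).2 (Or.inl e17)
    · exact (hE _ _).2 (Or.inl e18)
    · exact (hE _ _).2 (Or.inr (Or.inl e19))
    · exact (hE _ _).2 (Or.inr (Or.inl e20))
    · exact (hE _ _).2 (Or.inr (Or.inl e21))
  · intro i hi y h
    simp only [inner, Bool.and_eq_true, bne_iff_ne, ne_eq, decide_eq_true_eq] at hi
    rw [hE] at h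
    by_cases h1 : i < 16
    · rw [φp i h1] at h
      rcases h with h | h | ⟨t, ht, ⟨a, b, c⟩ | ⟨a, b, c⟩⟩
      · rw [hnone] at h; cases h
      · by_cases h8 : i = 8
        · subst h8
          exact ⟨16, by decide, u16 _ h⟩
        · exact absurd h (hF i (by omega) (by omega) h8 y)
      · have := hinj _ (by omega) _ (by omega) a
        subst this
        rw [hb i (by omega)] at c
        exact ⟨i + 1, (bK_EK i (by omega)).1 c, by rw [φp _ (by omega), ← b]; rfl⟩
      · have := hinj _ (by omega) _ (by omega) b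
        obtain ⟨j, rfl⟩ : ∃ j, i = j + 1 := ⟨i - 1, by omega⟩
        have ht : t = o + j := by omega
        subst ht
        rw [hb j (by omega)] at c
        exact ⟨j, (bK_EK j (by omega)).2 c, by rw [φp _ (by omega), ← a]⟩
    · have h2 := hnw i (by omega) hi.2
      rcases h with h | h | ⟨t, ht, ⟨a, b, c⟩ | ⟨a, b, c⟩⟩
      · push Not at h1
        have h3 := hi.2
        interval_cases i
        · rw [φ16, e16] at h; simp at h
        · rw [φ17, e17] at h
          exact ⟨16, by decide, by simp at h; exact h.symm⟩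
        · rw [φ18, e18] at h
          exact ⟨17, by decide, by simp at h; exact h.symm⟩
        · rw [φ19, e19] at h; simp at h
        · rw [φ20, e20] at h; simp at h
        · rw [φ21, e21] at h; simp at h
      · push Not at h1
        have h3 := hi.2
        interval_cases i
        · exact absurd h (n16 y)
        · exact absurd h (n17 y)
        · exact ⟨19, by decide, u19 _ h⟩
        · exact ⟨20, by decide, u20 _ h⟩
        · exact ⟨21, by decide, u21 _ h⟩
        · exact absurd h (n21 y)
      · exact absurd a (h2 _)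
      · exact absurd b (h2 _)
  · intro i hi y h
    simp only [inner, Bool.and_eq_true, bne_iff_ne, ne_eq, decide_eq_true_eq] at hi
    rw [hE] at h
    by_cases h1 : i < 16
    · rw [φp i h1] at h
      rcases h with h | h | ⟨t, ht, ⟨a, b, c⟩ | ⟨a, b, c⟩⟩
      · exact absurd h (hT i (by omega) (by omega) y)
      · rw [hnone] at h; cases h
      · have := hinj _ (by omega) _ (by omega) b
        obtain ⟨j, rfl⟩ : ∃ j, i = j + 1 := ⟨i - 1, by omega⟩
        have ht : t = o + j := by omega
        subst ht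
        rw [hb j (by omega)] at c
        exact ⟨j, (bK_EK j (by omega)).1 c, by rw [φp _ (by omega), ← a]⟩
      · have := hinj _ (by omega) _ (by omega) a
        subst this
        rw [hb i (by omega)] at c
        exact ⟨i + 1, (bK_EK i (by omega)).2 c, by rw [φp _ (by omega), ← b]; rfl⟩
    · have h2 := hnw i (by omega) hi.2
      rcases h with h | h | ⟨t, ht, ⟨a, b, c⟩ | ⟨a, b, c⟩⟩
      · push Not at h1
        have h3 := hi.2
        interval_cases i
        · exact ⟨17, by decide, u17 _ h⟩
        · exact ⟨18, by decide, u18 _ h⟩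
        · exact absurd h (n18 y)
        · exact absurd h (n19 y)
        · exact absurd h (n20 y)
        · exact absurd h (m21 y)
      · push Not at h1
        have h3 := hi.2
        interval_cases i
        · rw [φ16, e16] at h
          exact ⟨8, by decide, by simp at h; exact h.symm⟩
        · rw [φ17, e17] at h; simp at h
        · rw [φ18, e18] at h; simp at h
        · rw [φ19, e19] at h
          exact ⟨18, by decide, by simp at h; exact h.symm⟩
        · rw [φ20, e20] at h
          exact ⟨19, by decide, by simp at h; exact h.symm⟩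
        · rw [φ21, e21] at h
          exact ⟨20, by decide, by simp at h; exact h.symm⟩
      · exact absurd b (h2 _)
      · exact absurd a (h2 _)

def net (k : ℕ) (b : ℕ → Bool) : ℤ := ∑ t ∈ range k, if b t then 1 else -1

def BadA (M : ℕ) (E : V → V → Bool) : Prop :=
  ∃ (v : Fin (16 * M + 1) ↪ V) (β : Fin (16 * M) → Bool) (p : PF V),
    IsF (SS v) (AA v) p ∧ E = toE v β p ∧
      ∀ j < M, (∀ i < 16, exB β (16 * j + i) = bK i) → ¬ MB p (blk (exV v) (16 * j))

def BadB (D : ℕ) (E : V → V → Bool) : Prop :=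
  ∀ r x : V, ∃ (k : ℕ) (v : Fin (k + 1) ↪ V) (β : Fin k → Bool) (p : PF V),
    exV v 0 = x ∧ exV v k = r ∧ IsF (SS v) (AA v) p ∧ E = toE v β p ∧ |net k (exB β)| < D

theorem det {E : V → V → Bool} (hT : OT E) (hS : Sig E) (M : ℕ) : BadA M E ∨ BadB (16 * M) E := by
  obtain ⟨s, hsig, hs, hi⟩ := sig_idem hS
  obtain ⟨r0⟩ : Nonempty V := hT.2.connected.nonempty
  obtain ⟨par0, bit0, d0, R0⟩ := exists_rooted hT r0
  obtain ⟨l, hl⟩ := R0.exists_level
  by_cases h : ∃ a b, ((16 * M : ℕ) : ℤ) ≤ l a - l b
  · left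
    obtain ⟨a, b, hab⟩ := h
    set f : V → V := fun x => s x x x x with hf
    have hff : ∀ x, f (f x) = f x := hi
    have hfe : ∀ a b, E a b = true → E (f a) (f b) = true := fun a b h => hs _ _ _ _ _ _ _ _ h h h h
    have h1 := R0.level_diff (l := fun x => l (f x)) (m := l) (fun a b h => hl _ _ (hfe _ _ h)) hl
    have h2 : ∀ x, l (f x) = l x := by
      intro x
      have e1 := h1 x
      have e2 := h1 (f x)
      simp only [hff] at e1 e2
      omega
    obtain ⟨par, bit, d, R⟩ := exists_rooted hT (f b)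
    have h3 := R.level_le hl (f a)
    rw [h2, h2] at h3
    have h4 : 16 * M ≤ d (f a) := by omega
    have h5 := R.fix_path hfe (hff b) (hff a)
    have h6 := R.d_iter (f a) (d (f a) - 16 * M) (by omega)
    obtain ⟨v, β, p, hv, hp, hE⟩ := R.enc (par^[d (f a) - 16 * M] (f a)) (16 * M) (by omega)
    refine ⟨v, β, p, hp, hE, fun j hj hb hM => ?_⟩
    refine no_block v β hp (16 * j) (by omega) (fun i hi => hb i (by omega)) hM (hE ▸ hs) hsig ?_
    intro i hi
    rw [hv i hi, ← Function.iterate_add_apply]
    exact h5 _ (by omega)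
  · right
    push Not at h
    intro r x
    obtain ⟨par, bit, d, R⟩ := exists_rooted hT r
    obtain ⟨v, β, p, hv, hp, hE⟩ := R.enc x (d x) rfl
    have h1 : exV v (d x) = r := by
      rw [hv _ le_rfl]
      exact R.eq_root (by rw [R.d_iter x _ le_rfl]; simp)
    refine ⟨d x, v, β, p, hv 0 (by omega), h1, hp, hE, ?_⟩
    have h2 : ∀ i ≤ d x, net i (exB β) = l (exV v i) - l (exV v 0) := by
      intro i
      induction i with
      | zero => simp [net]
      | succ i ih =>
        intro hi
        have e := ih (by omega)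
        unfold net at e ⊢
        rw [sum_range_succ, e]
        cases hb : exB β i
        · have : E (exV v (i + 1)) (exV v i) = true := by
            rw [hE]; simp only [toE, decide_eq_true_eq]
            exact Or.inr (Or.inr ⟨i, hi, Or.inr ⟨rfl, rfl, hb⟩⟩)
          have := hl _ _ this
          simp; omega
        · have : E (exV v i) (exV v (i + 1)) = true := by
            rw [hE]; simp only [toE, decide_eq_true_eq]
            exact Or.inr (Or.inr ⟨i, hi, Or.inl ⟨rfl, rfl, hb⟩⟩)
          have := hl _ _ this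
          simp; omega
    rw [h2 _ le_rfl, abs_lt]
    have := h (exV v (d x)) (exV v 0)
    have := h (exV v 0) (exV v (d x))
    constructor <;> omega

end Pool.Agent.H755Z.Tree
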