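import Pool.Agent.H755Z.Tree.Forest

/-! Oriented trees, parent maps and the encoding of a tree by a path and a forest. -/

set_option autoImplicit false
set_option linter.unusedSectionVars false

namespace Pool.Agent.H755Z.Tree

open Finset Classical

variable {V : Type} [Fintype V] [DecidableEq V]

def OT (E : V → V → Bool) : Prop :=
  (∀ a b, ¬ (E a b = true ∧ E b a = true)) ∧
    (SimpleGraph.fromRel (fun a b => E a b = true)).IsTree

structure Rooted (E : V → V → Bool) (r : V) (par : V → V) (bit : V → Bool) (d : V → ℕ) :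
    Prop where
  d0 : d r = 0
  ds : ∀ a, a ≠ r → d a = d (par a) + 1
  adj : ∀ a b, E a b = true ↔
    (a ≠ r ∧ par a = b ∧ bit a = true) ∨ (b ≠ r ∧ par b = a ∧ bit b = false)

theorem exists_rooted {E : V → V → Bool} (h : OT E) (r : V) :
    ∃ par bit d, Rooted E r par bit d := by
  obtain ⟨has, hT⟩ := h
  set G := SimpleGraph.fromRel (fun a b => E a b = true) with hG
  have hc := hT.connected
  have h1 : ∀ a, ∃ b, a ≠ r → G.Adj a b ∧ G.dist a r = G.dist b r + 1 := by
    intro a
    by_cases ha : a = r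
    · exact ⟨a, fun h => absurd ha h⟩
    obtain ⟨p, hp⟩ := hc.exists_walk_length_eq_dist a r
    cases p with
    | nil => exact absurd rfl ha
    | cons hab q =>
      rename_i b
      refine ⟨b, fun _ => ⟨hab, ?_⟩⟩
      have h2 := SimpleGraph.dist_le q
      have h3 := hc.dist_triangle (u := a) (v := b) (w := r)
      rw [SimpleGraph.dist_eq_one_iff_adj.2 hab] at h3
      simp only [SimpleGraph.Walk.length_cons] at hp
      omega
  choose par hpar using h1
  have hsub : (univ.erase r).image (fun a => s(a, par a)) ⊆ G.edgeFinset := by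
    intro e he
    obtain ⟨a, ha, rfl⟩ := mem_image.1 he
    simpa using (hpar a (ne_of_mem_erase ha)).1
  have hcard : ((univ.erase r).image (fun a => s(a, par a))).card = Fintype.card V - 1 := by
    rw [card_image_of_injOn, card_erase_of_mem (mem_univ _), card_univ]
    intro a ha b hb e
    have ha' := (hpar a (ne_of_mem_erase (mem_coe.1 ha))).2
    have hb' := (hpar b (ne_of_mem_erase (mem_coe.1 hb))).2
    simp only [Sym2.eq_iff] at e
    rcases e with e | e
    · exact e.1
    · exfalso
      rw [e.2] at ha'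
      rw [← e.1] at hb'
      omega
  have hE := hT.card_edgeFinset
  have heq : (univ.erase r).image (fun a => s(a, par a)) = G.edgeFinset :=
    eq_of_subset_of_card_le hsub (by omega)
  have hadj : ∀ a b, G.Adj a b → (a ≠ r ∧ par a = b) ∨ (b ≠ r ∧ par b = a) := by
    intro a b hab
    have : s(a, b) ∈ G.edgeFinset := by simpa using hab
    rw [← heq] at this
    obtain ⟨c, hc, e⟩ := mem_image.1 this
    have hc' := ne_of_mem_erase hc
    simp only [Sym2.eq_iff] at e
    rcases e with ⟨rfl, e⟩ | ⟨rfl, e⟩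
    · exact Or.inl ⟨hc', e⟩
    · exact Or.inr ⟨hc', e⟩
  refine ⟨par, fun a => E a (par a), fun a => G.dist a r, by simp, fun a ha => (hpar a ha).2,
    fun a b => ⟨fun hab => ?_, ?_⟩⟩
  · have hne : a ≠ b := by rintro rfl; exact has a a ⟨hab, hab⟩
    have : G.Adj a b := by
      rw [hG, SimpleGraph.fromRel_adj]; exact ⟨hne, Or.inl hab⟩
    rcases hadj a b this with ⟨h1, h2⟩ | ⟨h1, h2⟩
    · exact Or.inl ⟨h1, h2, by simp only [h2, hab]⟩
    · refine Or.inr ⟨h1, h2, ?_⟩
      simp only [h2]
      by_contra h3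
      exact has a b ⟨hab, by simpa using h3⟩
  · rintro (⟨_, h2, h3⟩ | ⟨h1, h2, h3⟩)
    · simpa only [h2] using h3
    · have := (hpar b h1).1
      rw [hG, SimpleGraph.fromRel_adj, h2] at this
      simp only [h2] at h3
      rcases this.2 with h4 | h4
      · rw [h3] at h4; cases h4
      · exact h4

namespace Rooted

variable {E : V → V → Bool} {r : V} {par : V → V} {bit : V → Bool} {d : V → ℕ}

lemma eq_root (R : Rooted E r par bit d) {a : V} (h : d a = 0) : a = r := by
  by_contra hn
  have := R.ds a hn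
  omega

lemma d_iter (R : Rooted E r par bit d) (x : V) : ∀ i ≤ d x, d (par^[i] x) = d x - i := by
  intro i
  induction i with
  | zero => simp
  | succ i ih =>
    intro hi
    have h1 := ih (by omega)
    rw [Function.iterate_succ_apply']
    have : par^[i] x ≠ r := by
      intro e; rw [e, R.d0] at h1; omega
    have := R.ds _ this
    omega

lemma induct (R : Rooted E r par bit d) (P : V → Prop) (h0 : P r)
    (hs : ∀ a, a ≠ r → P (par a) → P a) : ∀ a, P a := by
  have : ∀ n a, d a = n → P a := by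
    intro n
    induction n with
    | zero => intro a ha; rw [R.eq_root ha]; exact h0
    | succ n ih =>
      intro a ha
      have hne : a ≠ r := by intro e; rw [e, R.d0] at ha; omega
      exact hs a hne (ih _ (by have := R.ds a hne; omega))
  exact fun a => this _ a rfl

lemma adj_par (R : Rooted E r par bit d) {a : V} (ha : a ≠ r) :
    E a (par a) = true ∨ E (par a) a = true := by
  cases h : bit a
  · exact Or.inr ((R.adj _ _).2 (Or.inr ⟨ha, rfl, h⟩))
  · exact Or.inl ((R.adj _ _).2 (Or.inl ⟨ha, rfl, h⟩))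

lemma of_adj (R : Rooted E r par bit d) {a b : V} (h : E a b = true ∨ E b a = true) :
    (par a = b ∧ d a = d b + 1) ∨ (par b = a ∧ d b = d a + 1) := by
  rcases h with h | h <;> rcases (R.adj _ _).1 h with ⟨h1, h2, _⟩ | ⟨h1, h2, _⟩
  · exact Or.inl ⟨h2, h2 ▸ R.ds _ h1⟩
  · exact Or.inr ⟨h2, h2 ▸ R.ds _ h1⟩
  · exact Or.inr ⟨h2, h2 ▸ R.ds _ h1⟩
  · exact Or.inl ⟨h2, h2 ▸ R.ds _ h1⟩

lemma exists_level (R : Rooted E r par bit d) :
    ∃ l : V → ℤ, ∀ a b, E a b = true → l b = l a + 1 := by
  let l : V → ℤ := fun a => ∑ i ∈ range (d a), if bit (par^[i] a) then -1 else 1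
  have hl : ∀ a, a ≠ r → l a = l (par a) + if bit a then -1 else 1 := by
    intro a ha
    simp only [l]
    rw [R.ds a ha, sum_range_succ']
    rfl
  refine ⟨l, fun a b hab => ?_⟩
  rcases (R.adj _ _).1 hab with ⟨h1, h2, h3⟩ | ⟨h1, h2, h3⟩
  · have := hl a h1
    rw [h2, h3] at this
    simp at this; omega
  · have := hl b h1
    rw [h2, h3] at this
    simpa using this

lemma level_diff (R : Rooted E r par bit d) {l m : V → ℤ}
    (hl : ∀ a b, E a b = true → l b = l a + 1) (hm : ∀ a b, E a b = true → m b = m a + 1) :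
    ∀ a, l a - m a = l r - m r := by
  refine R.induct _ rfl fun a ha ih => ?_
  rcases R.adj_par ha with h | h
  · have := hl _ _ h; have := hm _ _ h; omega
  · have := hl _ _ h; have := hm _ _ h; omega

lemma level_le (R : Rooted E r par bit d) {l : V → ℤ}
    (hl : ∀ a b, E a b = true → l b = l a + 1) : ∀ a, l a - l r ≤ d a := by
  refine R.induct _ (by simp) fun a ha ih => ?_
  have h1 := R.ds a ha
  rcases R.adj_par ha with h | h
  · have := hl _ _ h; omega
  · have := hl _ _ h; omega

/-- an endomorphism fixing the root and `x` fixes the path between them -/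
lemma fix_path (R : Rooted E r par bit d) {f : V → V}
    (hf : ∀ a b, E a b = true → E (f a) (f b) = true) (hr : f r = r) {x : V} (hx : f x = x) :
    ∀ i ≤ d x, f (par^[i] x) = par^[i] x := by
  have hadj : ∀ a, a ≠ r → E (f a) (f (par a)) = true ∨ E (f (par a)) (f a) = true := by
    intro a ha
    rcases R.adj_par ha with h | h
    · exact Or.inl (hf _ _ h)
    · exact Or.inr (hf _ _ h)
  have h1 : ∀ a, d (f a) ≤ d a := by
    refine R.induct _ (by rw [hr]) fun a ha ih => ?_
    have := R.ds a ha
    rcases R.of_adj (hadj a ha) with h | h <;> omega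
  intro i
  induction i with
  | zero => intro _; exact hx
  | succ i ih =>
    intro hi
    have h2 := ih (by omega)
    have h3 := R.d_iter x i (by omega)
    have h4 := R.d_iter x (i + 1) hi
    rw [Function.iterate_succ_apply'] at h4 ⊢
    have hne : par^[i] x ≠ r := by intro e; rw [e, R.d0] at h3; omega
    have h5 := h1 (par (par^[i] x))
    have h6 := hadj _ hne
    rw [h2] at h6
    rcases R.of_adj h6 with h | h
    · exact h.1.symm
    · omega

end Rooted

/-- the digraph described by a path `w 0, ..., w k` with orientation bits and a forest -/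
def EE (k : ℕ) (w : ℕ → V) (b : ℕ → Bool) (p : PF V) (x y : V) : Prop :=
  p x = some (y, true) ∨ p y = some (x, false) ∨
    ∃ t < k, (w t = x ∧ w (t + 1) = y ∧ b t = true) ∨ (w t = y ∧ w (t + 1) = x ∧ b t = false)

def exV {k : ℕ} (v : Fin (k + 1) → V) (i : ℕ) : V := v ⟨min i k, by omega⟩

def exB {k : ℕ} (β : Fin k → Bool) (i : ℕ) : Bool := if h : i < k then β ⟨i, h⟩ else false

noncomputable def toE {k : ℕ} (v : Fin (k + 1) ↪ V) (β : Fin k → Bool) (p : PF V) :
    V → V → Bool := fun x y => decide (EE k (exV v) (exB β) p x y)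

def SS {k : ℕ} (v : Fin (k + 1) ↪ V) : Finset V := univ \ univ.map v

def AA {k : ℕ} (v : Fin (k + 1) ↪ V) : Finset (V × Bool) := univ.map v ×ˢ univ

lemma card_SS {k : ℕ} (v : Fin (k + 1) ↪ V) : (SS v).card = Fintype.card V - (k + 1) := by
  unfold SS
  rw [card_sdiff_of_subset (subset_univ _)]
  simp

lemma card_AA {k : ℕ} (v : Fin (k + 1) ↪ V) : (AA v).card = 2 * (k + 1) := by
  unfold AA
  rw [card_product]
  simp [mul_comm]

lemma valid_SA {k : ℕ} (v : Fin (k + 1) ↪ V) : Valid (SS v) (AA v) := by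
  intro σ hσ h
  exact (mem_sdiff.1 h).2 (mem_product.1 hσ).1

lemma exV_inj {k : ℕ} (v : Fin (k + 1) ↪ V) {i j : ℕ} (hi : i ≤ k) (hj : j ≤ k)
    (h : exV v i = exV v j) : i = j := by
  have := v.injective h
  simp only [Fin.mk.injEq] at this
  omega

lemma exV_not_mem {k : ℕ} (v : Fin (k + 1) ↪ V) (i : ℕ) : exV v i ∉ SS v := by
  intro h
  exact (mem_sdiff.1 h).2 (mem_map.2 ⟨_, mem_univ _, rfl⟩)

lemma exV_mem_AA {k : ℕ} (v : Fin (k + 1) ↪ V) (i : ℕ) (b : Bool) : (exV v i, b) ∈ AA v :=
  mem_product.2 ⟨mem_map.2 ⟨_, mem_univ _, rfl⟩, mem_univ _⟩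

theorem Rooted.enc {E : V → V → Bool} {r : V} {par : V → V} {bit : V → Bool} {d : V → ℕ}
    (R : Rooted E r par bit d) (x : V) (k : ℕ) (hk : d x = k) :
    ∃ (v : Fin (k + 1) ↪ V) (β : Fin k → Bool) (p : PF V),
      (∀ i ≤ k, exV v i = par^[i] x) ∧ IsF (SS v) (AA v) p ∧ E = toE v β p := by
  have hd := R.d_iter x
  rw [hk] at hd
  let v : Fin (k + 1) ↪ V := ⟨fun i => par^[i] x, by
    intro i j e
    have h1 := hd i (by omega)
    have h2 := hd j (by omega)
    simp only at e
    rw [e] at h1
    ext; omega⟩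
  have hv : ∀ i ≤ k, exV v i = par^[i] x := by
    intro i hi
    simp only [exV, v, Function.Embedding.coeFn_mk, min_eq_left hi]
  have hS : ∀ a, a ∉ SS v ↔ ∃ i ≤ k, par^[i] x = a := by
    intro a
    simp only [SS, mem_sdiff, mem_univ, true_and, not_not, mem_map]
    constructor
    · rintro ⟨i, e⟩; exact ⟨i, by omega, e⟩
    · rintro ⟨i, hi, e⟩; exact ⟨⟨i, by omega⟩, e⟩
  have hr : par^[k] x = r := R.eq_root (by rw [hd k le_rfl]; simp)
  have hSr : ∀ a ∈ SS v, a ≠ r := by
    rintro a ha rfl
    exact (hS _).2 ⟨k, le_rfl, hr⟩ ha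
  have hpath : ∀ a, (a ∉ SS v ∧ a ≠ r) ↔ ∃ t < k, par^[t] x = a := by
    intro a
    constructor
    · rintro ⟨h1, h2⟩
      obtain ⟨i, hi, e⟩ := (hS a).1 h1
      refine ⟨i, lt_of_le_of_ne hi ?_, e⟩
      rintro rfl
      exact h2 (e.symm.trans hr)
    · rintro ⟨t, ht, e⟩
      refine ⟨(hS a).2 ⟨t, ht.le, e⟩, ?_⟩
      rintro rfl
      have := hd t ht.le
      rw [e, R.d0] at this
      omega
  let p : PF V := fun a => if a ∈ SS v then some (par a, bit a) else none
  have hp : ∀ a c b, p a = some (c, b) ↔ a ∈ SS v ∧ par a = c ∧ bit a = b := by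
    intro a c b
    simp only [p]
    split_ifs with h <;> simp [h]
  refine ⟨v, fun i => bit (par^[i] x), p, hv, ⟨fun a ha => if_neg ha, fun a ha => ?_, d, ?_⟩, ?_⟩
  · refine ⟨(par a, bit a), if_pos ha, ?_⟩
    by_cases h : par a ∈ SS v
    · exact Or.inl h
    · refine Or.inr (mem_product.2 ⟨?_, mem_univ _⟩)
      simpa [SS] using h
  · rintro a ⟨c, b⟩ e
    obtain ⟨h1, h2, -⟩ := (hp _ _ _).1 e
    have := R.ds a (hSr a h1)
    simp only [← h2]
    omega
  · funext a c
    rw [Bool.eq_iff_iff, R.adj]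
    simp only [toE, decide_eq_true_eq, EE, hp]
    have key : ∀ a c b, (a ≠ r ∧ par a = c ∧ bit a = b) ↔ ((a ∈ SS v ∧ par a = c ∧ bit a = b) ∨
        ∃ t < k, exV v t = a ∧ exV v (t + 1) = c ∧
          exB (fun i : Fin k => bit (par^[i] x)) t = b) := by
      intro a c b
      constructor
      · rintro ⟨h1, h2, h3⟩
        by_cases h : a ∈ SS v
        · exact Or.inl ⟨h, h2, h3⟩
        · obtain ⟨t, ht, e⟩ := (hpath a).1 ⟨h, h1⟩
          refine Or.inr ⟨t, ht, by rw [hv t ht.le, e], ?_, ?_⟩
          · rw [hv (t + 1) ht, Function.iterate_succ_apply', e, h2]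
          · simp only [exB, dif_pos ht, e, h3]
      · rintro (⟨h1, h2, h3⟩ | ⟨t, ht, e1, e2, e3⟩)
        · exact ⟨hSr a h1, h2, h3⟩
        · rw [hv t ht.le] at e1
          rw [hv (t + 1) ht, Function.iterate_succ_apply', e1] at e2
          simp only [exB, dif_pos ht, e1] at e3
          exact ⟨((hpath a).2 ⟨t, ht, e1⟩).2, e2, e3⟩
    rw [key a c true, key c a false]
    constructor
    · rintro ((h | ⟨t, ht, h⟩) | (h | ⟨t, ht, h⟩))
      · exact Or.inl h
      · exact Or.inr (Or.inr ⟨t, ht, Or.inl h⟩)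
      · exact Or.inr (Or.inl h)
      · exact Or.inr (Or.inr ⟨t, ht, Or.inr h⟩)
    · rintro (h | h | ⟨t, ht, h | h⟩)
      · exact Or.inl (Or.inl h)
      · exact Or.inr (Or.inl h)
      · exact Or.inl (Or.inr ⟨t, ht, h⟩)
      · exact Or.inr (Or.inr ⟨t, ht, h⟩)

/-- every forest with one root gives an oriented tree -/
theorem ot_of_isF (v : Fin (0 + 1) ↪ V) (β : Fin 0 → Bool) {p : PF V} (hp : IsF (SS v) (AA v) p) :
    OT (toE v β p) := by
  have h0 := hp
  obtain ⟨h1, h2, rk, hr⟩ := hp
  have hE : ∀ x y, toE v β p x y = true ↔ (p x = some (y, true) ∨ p y = some (x, false)) := by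
    intro x y; simp [toE, EE]
  have hS : ∀ a, a ∈ SS v ↔ a ≠ v 0 := by
    intro a
    simp only [SS, mem_sdiff, mem_univ, true_and, mem_map, not_exists]
    constructor
    · intro h e; exact h 0 e.symm
    · intro h i e
      have : i = 0 := Subsingleton.elim (α := Fin 1) _ _
      exact h (by rw [← e, this])
  refine ⟨fun a b ⟨e1, e2⟩ => ?_, ?_⟩
  · rw [hE] at e1 e2
    rcases e1 with e1 | e1 <;> rcases e2 with e2 | e2
    · have := hr _ _ e1; have := hr _ _ e2; simp only at *; omega
    · rw [e1] at e2; simp at e2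
    · rw [e1] at e2; simp at e2
    · have := hr _ _ e1; have := hr _ _ e2; simp only at *; omega
  set G := SimpleGraph.fromRel (fun a b => toE v β p a b = true) with hG
  have hadj : ∀ a σ, p a = some σ → G.Adj a σ.1 := by
    rintro a ⟨c, b⟩ e
    have := hr _ _ e
    rw [hG, SimpleGraph.fromRel_adj]
    refine ⟨by rintro rfl; simp at this, ?_⟩
    simp only [hE]
    cases b
    · exact Or.inr (Or.inr e)
    · exact Or.inl (Or.inl e)
  have hreach : ∀ n a, rk a = n → G.Reachable a (v 0) := by
    intro n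
    induction n using Nat.strong_induction_on with
    | _ n ih =>
      intro a ha
      by_cases h : a = v 0
      · rw [h]
      · obtain ⟨σ, e, -⟩ := h2 a ((hS a).2 h)
        have := hr _ _ e
        exact (hadj a σ e).reachable.trans (ih _ (by omega) _ rfl)
  have hc : G.Connected := by
    haveI : Nonempty V := ⟨v 0⟩
    exact ⟨fun a b => (hreach _ a rfl).trans (hreach _ b rfl).symm⟩
  rw [SimpleGraph.isTree_iff_connected_and_card]
  refine ⟨hc, le_antisymm ?_ hc.card_vert_le_card_edgeSet_add_one⟩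
  let f : V → Sym2 V := fun a => match p a with
    | some σ => s(a, σ.1)
    | none => s(a, a)
  have hsub : G.edgeFinset ⊆ (SS v).image f := by
    intro e he
    induction e using Sym2.ind with
    | _ a b =>
    have hab : G.Adj a b := by simpa using he
    rw [hG, SimpleGraph.fromRel_adj] at hab
    simp only [hE] at hab
    rcases hab.2 with (e | e) | (e | e)
    · exact mem_image.2 ⟨a, h0.mem_of_some e, by simp only [f, e]⟩
    · exact mem_image.2 ⟨b, h0.mem_of_some e, by simp only [f, e]; exact Sym2.eq_swap⟩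
    · exact mem_image.2 ⟨b, h0.mem_of_some e, by simp only [f, e]; exact Sym2.eq_swap⟩
    · exact mem_image.2 ⟨a, h0.mem_of_some e, by simp only [f, e]⟩
  have h3 := (card_le_card hsub).trans card_image_le
  rw [card_SS] at h3
  have h4 : 0 < Fintype.card V := Fintype.card_pos_iff.2 ⟨v 0⟩
  rw [Nat.card_eq_fintype_card, Nat.card_eq_fintype_card, ← SimpleGraph.edgeFinset_card]
  omega

theorem toE_inj (v : Fin (0 + 1) ↪ V) (β : Fin 0 → Bool) {p q : PF V} (hp : IsF (SS v) (AA v) p)
    (hq : IsF (SS v) (AA v) q) (h : toE v β p = toE v β q) : p = q := by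
  have hE : ∀ x y, (p x = some (y, true) ∨ p y = some (x, false)) ↔
      (q x = some (y, true) ∨ q y = some (x, false)) := by
    intro x y
    have := congrFun (congrFun h x) y
    simp only [toE, decide_eq_decide] at this
    simpa [EE] using this
  obtain ⟨rk, hr⟩ := hp.2.2
  have : ∀ n a, rk a = n → p a = q a := by
    intro n
    induction n using Nat.strong_induction_on with
    | _ n ih =>
      intro a ha
      by_cases hS : a ∈ SS v
      · obtain ⟨⟨c, b⟩, e, -⟩ := hp.2.1 a hS
        have h1 := hr _ _ e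
        have h2 := ih _ (by simp only at h1; omega) c rfl
        cases b
        · rcases (hE c a).1 (Or.inr e) with h3 | h3
          · have := hr _ _ (h2.trans h3); simp only at *; omega
          · rw [e, h3]
        · rcases (hE a c).1 (Or.inl e) with h3 | h3
          · rw [e, h3]
          · have := hr _ _ (h2.trans h3); simp only at *; omega
      · rw [hp.1 a hS, hq.1 a hS]
  funext a
  exact this _ a rfl

end Pool.Agent.H755Z.Tree
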