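import Mathlib

/-! Rooted forests with slots: exact count and the removal of one slot. -/

set_option autoImplicit false

namespace Pool.Agent.H755Z.Tree

open Finset Classical

variable {V : Type} [Fintype V] [DecidableEq V]

abbrev PF (V : Type) := V → Option (V × Bool)

def IsF (S : Finset V) (A : Finset (V × Bool)) (p : PF V) : Prop :=
  (∀ v, v ∉ S → p v = none) ∧ (∀ v ∈ S, ∃ σ, p v = some σ ∧ (σ.1 ∈ S ∨ σ ∈ A)) ∧
    ∃ h : V → ℕ, ∀ v σ, p v = some σ → h σ.1 < h v

noncomputable def FF (S : Finset V) (A : Finset (V × Bool)) : Finset (PF V) :=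
  univ.filter (IsF S A)

def Valid (S : Finset V) (A : Finset (V × Bool)) : Prop := ∀ σ ∈ A, σ.1 ∉ S

def cut (p : PF V) (σ : V × Bool) : PF V := fun v => if p v = some σ then none else p v

def ch (p : PF V) (σ : V × Bool) : Finset V := univ.filter (fun v => p v = some σ)

def paste (p : PF V) (C : Finset V) (σ : V × Bool) : PF V :=
  fun v => if v ∈ C then some σ else p v

def newA (A : Finset (V × Bool)) (σ : V × Bool) (C : Finset V) : Finset (V × Bool) :=
  A.erase σ ∪ C ×ˢ univ

lemma mem_FF {S : Finset V} {A : Finset (V × Bool)} {p : PF V} : p ∈ FF S A ↔ IsF S A p := by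
  simp [FF]

lemma mem_ch {p : PF V} {σ : V × Bool} {v : V} : v ∈ ch p σ ↔ p v = some σ := by simp [ch]

lemma mem_newA {A : Finset (V × Bool)} {σ τ : V × Bool} {C : Finset V} :
    τ ∈ newA A σ C ↔ (τ ≠ σ ∧ τ ∈ A) ∨ τ.1 ∈ C := by
  simp [newA, Finset.mem_product]

lemma IsF.mem_of_some {S : Finset V} {A : Finset (V × Bool)} {p : PF V} (h : IsF S A p)
    {v : V} {σ : V × Bool} (hv : p v = some σ) : v ∈ S := by
  by_contra hn
  rw [h.1 v hn] at hv
  cases hv

lemma ch_subset {S : Finset V} {A : Finset (V × Bool)} {p : PF V} (h : IsF S A p)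
    (σ : V × Bool) : ch p σ ⊆ S := fun _ hv => h.mem_of_some (mem_ch.1 hv)

lemma valid_new {S : Finset V} {A : Finset (V × Bool)} (hv : Valid S A) (σ : V × Bool)
    (C : Finset V) : Valid (S \ C) (newA A σ C) := by
  intro τ hτ
  rcases mem_newA.1 hτ with h | h
  · intro h2; exact hv τ h.2 (mem_sdiff.1 h2).1
  · intro h2; exact (mem_sdiff.1 h2).2 h

lemma card_newA {S : Finset V} {A : Finset (V × Bool)} (hv : Valid S A) {σ : V × Bool}
    (hσ : σ ∈ A) {C : Finset V} (hC : C ⊆ S) : (newA A σ C).card + 1 = A.card + 2 * C.card := by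
  unfold newA
  rw [card_union_of_disjoint, card_erase_of_mem hσ, card_product, card_univ, Fintype.card_bool]
  · have := card_pos.2 ⟨σ, hσ⟩
    omega
  · rw [disjoint_left]
    intro τ h1 h2
    exact hv τ (mem_of_mem_erase h1) (hC (mem_product.1 h2).1)

lemma isF_cut {S : Finset V} {A : Finset (V × Bool)} {p : PF V} (h : IsF S A p)
    (σ : V × Bool) : IsF (S \ ch p σ) (newA A σ (ch p σ)) (cut p σ) := by
  obtain ⟨h1, h2, r, hr⟩ := h
  refine ⟨fun v hv => ?_, fun v hv => ?_, r, fun v τ hv => ?_⟩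
  · unfold cut
    split_ifs with hc
    · rfl
    · apply h1
      intro hS
      exact hv (mem_sdiff.2 ⟨hS, fun h3 => hc (mem_ch.1 h3)⟩)
  · obtain ⟨hS, hc⟩ := mem_sdiff.1 hv
    rw [mem_ch] at hc
    obtain ⟨τ, e, hτ⟩ := h2 v hS
    refine ⟨τ, by unfold cut; rw [if_neg hc, e], ?_⟩
    have hne : τ ≠ σ := by rintro rfl; exact hc e
    by_cases h3 : τ.1 ∈ ch p σ
    · exact Or.inr (mem_newA.2 (Or.inr h3))
    · rcases hτ with hτ | hτ
      · exact Or.inl (mem_sdiff.2 ⟨hτ, h3⟩)
      · exact Or.inr (mem_newA.2 (Or.inl ⟨hne, hτ⟩))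
  · unfold cut at hv
    split_ifs at hv with hc
    exact hr v τ hv

lemma paste_cut (p : PF V) (σ : V × Bool) : paste (cut p σ) (ch p σ) σ = p := by
  funext v
  unfold paste cut
  by_cases h : p v = some σ
  · rw [if_pos (mem_ch.2 h), h]
  · rw [if_neg (fun h2 => h (mem_ch.1 h2)), if_neg h]

lemma isF_paste {S : Finset V} {A : Finset (V × Bool)} (hv : Valid S A) {σ : V × Bool}
    (hσ : σ ∈ A) {C : Finset V} (hC : C ⊆ S) {p : PF V} (h : IsF (S \ C) (newA A σ C) p) :
    IsF S A (paste p C σ) := by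
  have h0 := h
  obtain ⟨h1, h2, r, hr⟩ := h
  refine ⟨fun v hv => ?_, fun v hS => ?_, fun v => if v = σ.1 then 0 else r v + 1,
    fun v τ e => ?_⟩
  · unfold paste
    rw [if_neg (fun h3 => hv (hC h3))]
    exact h1 v (fun h3 => hv (mem_sdiff.1 h3).1)
  · unfold paste
    split_ifs with hc
    · exact ⟨σ, rfl, Or.inr hσ⟩
    · obtain ⟨τ, e, hτ⟩ := h2 v (mem_sdiff.2 ⟨hS, hc⟩)
      refine ⟨τ, e, ?_⟩
      rcases hτ with hτ | hτ
      · exact Or.inl (mem_sdiff.1 hτ).1
      · rcases mem_newA.1 hτ with h3 | h3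
        · exact Or.inr h3.2
        · exact Or.inl (hC h3)
  · unfold paste at e
    split_ifs at e with hc
    · cases e
      have : v ≠ σ.1 := by rintro rfl; exact hv σ hσ (hC hc)
      simp [this]
    · have hS := (mem_sdiff.1 (h0.mem_of_some e)).1
      have : v ≠ σ.1 := by rintro rfl; exact hv σ hσ hS
      have h4 := hr v τ e
      simp only [this, if_false]
      split_ifs <;> omega

lemma ne_slot {S : Finset V} {A : Finset (V × Bool)} (hv : Valid S A) {σ : V × Bool}
    (hσ : σ ∈ A) {C : Finset V} (hC : C ⊆ S) {p : PF V} (h : IsF (S \ C) (newA A σ C) p)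
    (v : V) : p v ≠ some σ := by
  intro e
  obtain ⟨τ, e2, hτ⟩ := h.2.1 v (h.mem_of_some e)
  rw [e] at e2
  cases e2
  rcases hτ with hτ | hτ
  · exact hv σ hσ (mem_sdiff.1 hτ).1
  · rcases mem_newA.1 hτ with h3 | h3
    · exact h3.1 rfl
    · exact hv σ hσ (hC h3)

lemma card_le_sum {S : Finset V} {A : Finset (V × Bool)} (σ : V × Bool) (Q : PF V → Prop)
    (Q' : Finset V → PF V → Prop)
    (hQ : ∀ p, IsF S A p → Q p → Q' (ch p σ) (cut p σ)) :
    ((FF S A).filter Q).card ≤
      ∑ C ∈ S.powerset, ((FF (S \ C) (newA A σ C)).filter (Q' C)).card := by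
  rw [← card_sigma]
  refine card_le_card_of_injOn (fun p => ⟨ch p σ, cut p σ⟩) ?_ ?_
  · intro p hp
    simp only [coe_filter, Set.mem_setOf_eq, mem_FF] at hp
    simp only [mem_coe, mem_sigma, mem_powerset, mem_filter, mem_FF]
    exact ⟨ch_subset hp.1 σ, isF_cut hp.1 σ, hQ p hp.1 hp.2⟩
  · intro p _ q _ e
    simp only [Sigma.mk.injEq, heq_eq_eq] at e
    rw [← paste_cut p σ, ← paste_cut q σ, e.1, e.2]

lemma card_eq_sum {S : Finset V} {A : Finset (V × Bool)} (hv : Valid S A) {σ : V × Bool}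
    (hσ : σ ∈ A) :
    (FF S A).card = ∑ C ∈ S.powerset, (FF (S \ C) (newA A σ C)).card := by
  apply le_antisymm
  · have := card_le_sum (S := S) (A := A) σ (fun _ => True) (fun _ _ => True) (fun _ _ _ => trivial)
    simpa using this
  · rw [← card_sigma]
    refine card_le_card_of_injOn (fun x => paste x.2 x.1 σ) ?_ ?_
    · rintro ⟨C, p⟩ hp
      simp only [mem_coe, mem_sigma, mem_powerset, mem_FF] at hp ⊢
      exact isF_paste hv hσ hp.1 hp.2
    · rintro ⟨C, p⟩ hp ⟨D, q⟩ hq e
      simp only [mem_coe, mem_sigma, mem_powerset, mem_FF] at hp hq e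
      have hCD : C = D := by
        ext v
        have e1 := congrFun e v
        unfold paste at e1
        by_cases h1 : v ∈ C <;> by_cases h2 : v ∈ D
        · simp [h1, h2]
        · rw [if_pos h1, if_neg h2] at e1
          exact absurd e1.symm (ne_slot hv hσ hq.1 hq.2 v)
        · rw [if_neg h1, if_pos h2] at e1
          exact absurd e1 (ne_slot hv hσ hp.1 hp.2 v)
        · simp [h1, h2]
      subst hCD
      have : p = q := by
        funext v
        have e1 := congrFun e v
        unfold paste at e1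
        by_cases h1 : v ∈ C
        · rw [hp.2.1 v (by simp [h1]), hq.2.1 v (by simp [h1])]
        · rwa [if_neg h1, if_neg h1] at e1
      rw [this]

lemma FF_empty_left (A : Finset (V × Bool)) : (FF (∅ : Finset V) A).card = 1 := by
  rw [card_eq_one]
  refine ⟨fun _ => none, ?_⟩
  ext p
  simp only [mem_FF, mem_singleton]
  constructor
  · intro h; funext v; exact h.1 v (by simp)
  · rintro rfl
    exact ⟨fun _ _ => rfl, by simp, fun _ => 0, by simp⟩

lemma FF_empty_right {S : Finset V} (hS : S.Nonempty) : FF S (∅ : Finset (V × Bool)) = ∅ := by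
  rw [eq_empty_iff_forall_notMem]
  intro p hp
  obtain ⟨-, h2, r, hr⟩ := mem_FF.1 hp
  obtain ⟨v, hv, hm⟩ := exists_min_image S r hS
  obtain ⟨τ, e, hτ⟩ := h2 v hv
  rcases hτ with hτ | hτ
  · have := hm _ hτ
    have := hr v τ e
    omega
  · simp at hτ

lemma binom_aux (s : ℕ) (x : ℝ) :
    (∑ i ∈ range (s + 1), (s.choose i : ℝ) * (i * x ^ (s - i))) * (x + 1) = s * (x + 1) ^ s := by
  rcases s with _ | t
  · simp
  · rw [sum_range_succ']
    have : ∀ i ∈ range (t + 1), ((t + 1).choose (i + 1) : ℝ) * (((i + 1 : ℕ) : ℝ) * x ^ (t + 1 - (i + 1)))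
        = (t + 1 : ℝ) * ((1 : ℝ) ^ i * x ^ (t - i) * (t.choose i : ℝ)) := by
      intro i _
      have h := Nat.add_one_mul_choose_eq t i
      have h' : ((t + 1 : ℝ)) * (t.choose i : ℝ) = ((t + 1).choose (i + 1) : ℝ) * ((i + 1 : ℕ) : ℝ) := by
        exact_mod_cast h
      rw [Nat.add_sub_add_right, one_pow, one_mul]
      linear_combination (-(x ^ (t - i))) * h'
    rw [sum_congr rfl this, ← mul_sum, ← add_pow]
    push_cast
    ring

/-- the exact number of forests -/
theorem card_FF (N : ℕ) : ∀ (S : Finset V) (A : Finset (V × Bool)), 2 * S.card + A.card = N →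
    Valid S A → ((FF S A).card : ℝ) * N = A.card * (N : ℝ) ^ S.card := by
  induction N with
  | zero =>
    intro S A h _
    have : A.card = 0 := by omega
    simp [this]
  | succ N ih =>
    intro S A h hv
    rcases A.eq_empty_or_nonempty with rfl | ⟨σ, hσ⟩
    · have : S.Nonempty := by
        rw [← card_pos]; simp at h; omega
      rw [FF_empty_right this]; simp
    rcases S.eq_empty_or_nonempty with rfl | hS
    · rw [FF_empty_left]
      simp at h ⊢
      exact_mod_cast h.symm
    have hA := card_pos.2 ⟨σ, hσ⟩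
    have hs := card_pos.2 hS
    have hN : (N : ℝ) ≠ 0 := by
      have : N ≠ 0 := by omega
      exact_mod_cast this
    have key : ((FF S A).card : ℝ) * N = ∑ C ∈ S.powerset,
        ((A.card : ℝ) - 1 + 2 * C.card) * (N : ℝ) ^ (S.card - C.card) := by
      rw [card_eq_sum hv hσ]
      push_cast
      rw [sum_mul]
      refine sum_congr rfl fun C hC => ?_
      have hC' := mem_powerset.1 hC
      have h1 := card_newA hv hσ hC'
      have h2 : (S \ C).card = S.card - C.card := card_sdiff_of_subset hC'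
      have h3 := card_le_card hC'
      rw [ih (S \ C) (newA A σ C) (by omega) (valid_new hv σ C), h2]
      have h4 : ((newA A σ C).card : ℝ) + 1 = A.card + 2 * C.card := by exact_mod_cast h1
      congr 1
      linarith
    rw [sum_powerset_apply_card
      (fun i => ((A.card : ℝ) - 1 + 2 * (i : ℝ)) * (N : ℝ) ^ (S.card - i))] at key
    have b1 := binom_aux S.card (N : ℝ)
    have b2 : ∑ i ∈ range (S.card + 1), (S.card.choose i : ℝ) * (N : ℝ) ^ (S.card - i)
        = (N + 1 : ℝ) ^ S.card := by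
      rw [add_comm (N : ℝ) 1, add_pow]
      refine sum_congr rfl fun i _ => by ring
    have e : ∑ i ∈ range (S.card + 1), S.card.choose i •
        (((A.card : ℝ) - 1 + 2 * (i : ℝ)) * (N : ℝ) ^ (S.card - i)) =
        ((A.card : ℝ) - 1) * (∑ i ∈ range (S.card + 1), (S.card.choose i : ℝ) * (N : ℝ) ^ (S.card - i))
        + 2 * ∑ i ∈ range (S.card + 1), (S.card.choose i : ℝ) * (i * (N : ℝ) ^ (S.card - i)) := by
      rw [mul_sum, mul_sum, ← sum_add_distrib]
      refine sum_congr rfl fun i _ => ?_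
      rw [nsmul_eq_mul]; ring
    rw [e, b2] at key
    have h5 : 2 * (S.card : ℝ) + A.card = N + 1 := by exact_mod_cast h
    apply mul_left_cancel₀ hN
    push_cast
    have : (N : ℝ) * (((FF S A).card : ℝ) * (N + 1)) = (((FF S A).card : ℝ) * N) * (N + 1) := by ring
    rw [this, key, add_mul, mul_assoc 2, b1]
    have h6 : (N : ℝ) = 2 * S.card + A.card - 1 := by linarith
    generalize ((N : ℝ) + 1) ^ S.card = X
    rw [h6]; ring

end Pool.Agent.H755Z.Tree
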