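import Pool.Agent.H755Z.Tree.Count

/-! Asymptotics. -/

set_option autoImplicit false
set_option linter.unusedSectionVars false

namespace Pool.Agent.H755Z.Tree

open Finset Classical Filter Topology

lemma fact_le (n : ℕ) : ((n + 1).factorial : ℝ) * Real.exp (n + 1 : ℕ) ≤
    Real.exp 1 * ((n + 1 : ℕ) : ℝ) ^ (n + 2) := by
  induction n with
  | zero => simp
  | succ n ih =>
    set m : ℝ := ((n + 1 : ℕ) : ℝ) with hm
    have hm0 : 0 < m := by positivity
    have h1 : m / (m + 1) ≤ Real.exp (-(1 / (m + 1))) := by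
      have := Real.add_one_le_exp (-(1 / (m + 1)))
      have e : m / (m + 1) = -(1 / (m + 1)) + 1 := by field_simp; ring
      linarith
    have h2 : (m / (m + 1)) ^ (n + 2) ≤ Real.exp (-1) := by
      calc _ ≤ (Real.exp (-(1 / (m + 1)))) ^ (n + 2) := by gcongr
        _ = Real.exp (-1) := by
          rw [← Real.exp_nat_mul]; congr 1
          have : ((n + 2 : ℕ) : ℝ) = m + 1 := by rw [hm]; push_cast; ring
          rw [this]; field_simp
    have h3 : Real.exp 1 * m ^ (n + 2) ≤ (m + 1) ^ (n + 2) := by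
      rw [div_pow, div_le_iff₀ (by positivity)] at h2
      have e : Real.exp 1 * Real.exp (-1) = 1 := by rw [← Real.exp_add]; simp
      calc Real.exp 1 * m ^ (n + 2) ≤ Real.exp 1 * (Real.exp (-1) * (m + 1) ^ (n + 2)) := by gcongr
        _ = _ := by rw [← mul_assoc, e, one_mul]
    have e1 : ((n + 1 + 1 : ℕ) : ℝ) = m + 1 := by rw [hm]; push_cast; ring
    rw [Nat.factorial_succ (n + 1), Nat.cast_mul, e1, Real.exp_add]
    calc (m + 1) * ((n + 1).factorial : ℝ) * (Real.exp m * Real.exp 1)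
        = (m + 1) * Real.exp 1 * (((n + 1).factorial : ℝ) * Real.exp m) := by ring
      _ ≤ (m + 1) * Real.exp 1 * (Real.exp 1 * m ^ (n + 2)) := by gcongr
      _ ≤ (m + 1) * Real.exp 1 * (m + 1) ^ (n + 2) := by gcongr
      _ = _ := by ring

noncomputable def err (t : ℕ) : ℝ :=
  2 * Real.exp 1 * (((t + 1 : ℕ) : ℝ) ^ 27 * (1 - pi0 / 2 ^ 16) ^ t) + 33 / (t : ℝ)

lemma err_tendsto : Tendsto err atTop (𝓝 0) := by
  have hq0 : 0 < 1 - pi0 / 2 ^ 16 := by have := pi0_le; linarith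
  have hq1 : 1 - pi0 / 2 ^ 16 < 1 := by have := pi0_pos; linarith [div_pos pi0_pos (by positivity : (0:ℝ) < 2 ^ 16)]
  set q := 1 - pi0 / 2 ^ 16 with hq
  have h1 := tendsto_pow_const_mul_const_pow_of_abs_lt_one 27 (r := q) (by rw [abs_of_pos hq0]; exact hq1)
  have h2 := (h1.comp (tendsto_add_atTop_nat 1)).mul_const q⁻¹
  have h3 : Tendsto (fun t : ℕ => ((t + 1 : ℕ) : ℝ) ^ 27 * q ^ t) atTop (𝓝 0) := by
    rw [zero_mul] at h2
    refine h2.congr fun t => ?_
    simp only [Function.comp]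
    rw [pow_succ q]; field_simp
  have h4 := (h3.const_mul (2 * Real.exp 1)).add (tendsto_const_div_atTop_nhds_zero_nat (33 : ℝ))
  rw [mul_zero, add_zero] at h4
  exact h4

lemma root_tendsto : Tendsto (fun n => Nat.nthRoot 9 n) atTop atTop := by
  rw [tendsto_atTop_atTop]
  intro b
  exact ⟨b ^ 9, fun a ha => (Nat.le_nthRoot_iff (by norm_num)).2 ha⟩

theorem bad_le (n : ℕ) (hn : 0 < n) :
    ((univ.filter (fun E : Fin n → Fin n → Bool => OT E ∧ Sig E)).card : ℝ) ≤
      err (Nat.nthRoot 9 n) * (univ.filter (OT (V := Fin n))).card := by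
  set t := Nat.nthRoot 9 n with ht
  have ht1 : t ^ 9 ≤ n := Nat.pow_nthRoot_le (Or.inl (by norm_num))
  have ht2 : n < (t + 1) ^ 9 := Nat.lt_pow_nthRoot_add_one (by norm_num) n
  have ht0 : 0 < t := (Nat.le_nthRoot_iff (by norm_num)).2 (show 1 ^ 9 ≤ n by rw [one_pow]; exact hn)
  have hc : 0 < Fintype.card (Fin n) := by simpa using hn
  have hT := total_ge hc
  have hA := cntA (V := Fin n) t
  have hB := cntB hc (16 * t) t ht0
  rw [Fintype.card_fin] at hT hA hB
  have h1 : (univ.filter (fun E : Fin n → Fin n → Bool => OT E ∧ Sig E)).card ≤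
      (univ.filter (BadA (V := Fin n) t)).card + (univ.filter (BadB (V := Fin n) (16 * t))).card := by
    refine le_trans (card_le_card ?_) (card_union_le _ _)
    intro E hE
    obtain ⟨h1, h2⟩ := (mem_filter.1 hE).2
    simpa using det h1 h2 t
  have h1' : ((univ.filter (fun E : Fin n → Fin n → Bool => OT E ∧ Sig E)).card : ℝ) ≤
      (univ.filter (BadA (V := Fin n) t)).card + (univ.filter (BadB (V := Fin n) (16 * t))).card := by
    exact_mod_cast h1
  set T : ℝ := ((univ.filter (OT (V := Fin n))).card : ℝ)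
  set a : ℝ := ((univ.filter (BadA (V := Fin n) t)).card : ℝ)
  set b : ℝ := ((univ.filter (BadB (V := Fin n) (16 * t))).card : ℝ)
  have hn' : (0 : ℝ) < n := by exact_mod_cast hn
  have ht' : (0 : ℝ) < t := by exact_mod_cast ht0
  have hq0 : 0 < 1 - pi0 / 2 ^ 16 := by have := pi0_le; linarith
  set q := 1 - pi0 / 2 ^ 16 with hq
  have hf : (n.factorial : ℝ) * Real.exp n ≤ Real.exp 1 * (n : ℝ) ^ (n + 1) := by
    obtain ⟨m, rfl⟩ : ∃ m, n = m + 1 := ⟨n - 1, by omega⟩
    exact fact_le m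
  have h3 : (n : ℝ) ^ 3 ≤ ((t + 1 : ℕ) : ℝ) ^ 27 := by
    have : n ^ 3 ≤ (t + 1) ^ 27 := by
      calc n ^ 3 ≤ ((t + 1) ^ 9) ^ 3 := by gcongr
        _ = _ := by ring
    exact_mod_cast this
  have hA' : a * (2 * (n : ℝ) ^ 2) ≤
      (2 * n : ℝ) ^ n * (2 * Real.exp 1 * (((t + 1 : ℕ) : ℝ) ^ 27 * q ^ t)) := by
    calc a * (2 * (n : ℝ) ^ 2) ≤ (n.factorial * 2 ^ n * Real.exp n * q ^ t) * (2 * (n : ℝ) ^ 2) := by
          gcongr
      _ = (n.factorial * Real.exp n) * (2 ^ n * q ^ t * (2 * (n : ℝ) ^ 2)) := by ring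
      _ ≤ (Real.exp 1 * (n : ℝ) ^ (n + 1)) * (2 ^ n * q ^ t * (2 * (n : ℝ) ^ 2)) := by gcongr
      _ = (2 * n : ℝ) ^ n * (2 * Real.exp 1 * ((n : ℝ) ^ 3 * q ^ t)) := by rw [mul_pow]; ring
      _ ≤ _ := by gcongr
  have h4 : (t : ℝ) ^ 8 / n + 2 * ((16 * t : ℕ) : ℝ) / (t : ℝ) ^ 2 ≤ 33 / (t : ℝ) := by
    have e1 : (t : ℝ) ^ 8 / n ≤ 1 / t := by
      rw [div_le_div_iff₀ hn' ht']
      have : (t : ℝ) ^ 9 ≤ n := by exact_mod_cast ht1
      nlinarith
    have e2 : 2 * ((16 * t : ℕ) : ℝ) / (t : ℝ) ^ 2 = 32 / t := by push_cast; field_simp; norm_num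
    have e3 : 33 / (t : ℝ) = 1 / t + 32 / t := by ring
    linarith
  have hB' : b * (2 * (n : ℝ) ^ 2) ≤ (2 * n : ℝ) ^ n * (33 / (t : ℝ)) :=
    hB.trans (mul_le_mul_of_nonneg_left h4 (by positivity))
  have he : 0 ≤ err t := by unfold err; positivity
  have h5 : (a + b) * (2 * (n : ℝ) ^ 2) ≤ (err t * T) * (2 * (n : ℝ) ^ 2) := by
    calc (a + b) * (2 * (n : ℝ) ^ 2) ≤ (2 * n : ℝ) ^ n * err t := by
          unfold err; rw [add_mul, mul_add]; exact add_le_add hA' hB'
      _ ≤ (T * (2 * (n : ℝ) ^ 2)) * err t := by gcongr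
      _ = _ := by ring
  exact h1'.trans (le_of_mul_le_mul_right h5 (by positivity))

theorem main : Tendsto (fun n : ℕ =>
    ((univ.filter (fun E : Fin n → Fin n → Bool => OT E ∧ ¬ Sig E)).card : ℝ) /
      ((univ.filter (OT (V := Fin n))).card : ℝ)) atTop (𝓝 1) := by
  have h1 : Tendsto (fun n : ℕ => 1 - err (Nat.nthRoot 9 n)) atTop (𝓝 1) := by
    simpa using (err_tendsto.comp root_tendsto).const_sub 1
  refine tendsto_of_tendsto_of_tendsto_of_le_of_le' h1 tendsto_const_nhds ?_ ?_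
  · filter_upwards [eventually_gt_atTop 0] with n hn
    have hc : 0 < Fintype.card (Fin n) := by simpa using hn
    have hT := total_ge hc
    rw [Fintype.card_fin] at hT
    have hn' : (0 : ℝ) < n := by exact_mod_cast hn
    have hT0 : (0 : ℝ) < ((univ.filter (OT (V := Fin n))).card : ℝ) := by
      by_contra h
      have : (0 : ℝ) < (2 * n : ℝ) ^ n := by positivity
      have : (0 : ℝ) < 2 * (n : ℝ) ^ 2 := by positivity
      nlinarith
    have h2 := bad_le n hn
    have h3 : (univ.filter (fun E : Fin n → Fin n → Bool => OT E ∧ Sig E)).card +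
        (univ.filter (fun E : Fin n → Fin n → Bool => OT E ∧ ¬ Sig E)).card =
        (univ.filter (OT (V := Fin n))).card := by
      rw [← filter_filter, ← filter_filter]
      exact card_filter_add_card_filter_not _
    have h4 : ((univ.filter (fun E : Fin n → Fin n → Bool => OT E ∧ Sig E)).card : ℝ) +
        (univ.filter (fun E : Fin n → Fin n → Bool => OT E ∧ ¬ Sig E)).card =
        (univ.filter (OT (V := Fin n))).card := by exact_mod_cast h3
    rw [le_div_iff₀ hT0]
    linarith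
  · refine Eventually.of_forall fun n => div_le_one_of_le₀ ?_ (by positivity)
    have : (univ.filter (fun E : Fin n → Fin n → Bool => OT E ∧ ¬ Sig E)).card ≤
        (univ.filter (OT (V := Fin n))).card :=
      card_le_card fun E hE => mem_filter.2 ⟨mem_univ _, (mem_filter.1 hE).2.1⟩
    exact_mod_cast this

end Pool.Agent.H755Z.Tree
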